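import Pool.Agent.U674.TI.Stab
import Pool.Agent.U181.TG.Low

/-!
# Classes in `K₀` of modules given by idempotent matrices
-/

set_option autoImplicit false

namespace Pool.Agent.U674.TJ

open Matrix Pool.Agent.U181.TG Pool.Agent.Y75
open Pool.Agent.U674.TI (RowSp exists_idem rowSp_projective)

variable {A : Type} [Ring A]

theorem equiv_of_split {P Q : Type} [AddCommGroup P] [Module A P] [AddCommGroup Q] [Module A Q]
    (e : P ≃ₗ[A] Q) (E F : NK.Idem A)
    (i : P →ₗ[A] (Fin E.n → A)) (s : (Fin E.n → A) →ₗ[A] P) (hs : s ∘ₗ i = LinearMap.id)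
    (hE : E.e.toLinearMapRight' = i ∘ₗ s)
    (j : Q →ₗ[A] (Fin F.n → A)) (t : (Fin F.n → A) →ₗ[A] Q) (ht : t ∘ₗ j = LinearMap.id)
    (hF : F.e.toLinearMapRight' = j ∘ₗ t) : E.Equiv F := by
  have hs' : ∀ x, s (i x) = x := fun x => congrArg (fun g => g x) hs
  have ht' : ∀ x, t (j x) = x := fun x => congrArg (fun g => g x) ht
  refine ⟨(j ∘ₗ e.toLinearMap ∘ₗ s).toMatrixRight', (i ∘ₗ e.symm.toLinearMap ∘ₗ t).toMatrixRight',
    ?_, ?_⟩
  · rw [← LinearMap.toMatrixRight'_comp]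
    have h1 : (i ∘ₗ e.symm.toLinearMap ∘ₗ t) ∘ₗ (j ∘ₗ e.toLinearMap ∘ₗ s) =
        E.e.toLinearMapRight' := by
      rw [hE]
      apply LinearMap.ext
      intro v
      simp [ht']
    rw [h1]
    exact LinearEquiv.apply_symm_apply _ _
  · rw [← LinearMap.toMatrixRight'_comp]
    have h1 : (j ∘ₗ e.toLinearMap ∘ₗ s) ∘ₗ (i ∘ₗ e.symm.toLinearMap ∘ₗ t) =
        F.e.toLinearMapRight' := by
      rw [hF]
      apply LinearMap.ext
      intro v
      simp [hs']
    rw [h1]
    exact LinearEquiv.apply_symm_apply _ _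

theorem rowSp_split (E : NK.Idem A) :
    ∃ (i : RowSp E.e →ₗ[A] (Fin E.n → A)) (s : (Fin E.n → A) →ₗ[A] RowSp E.e),
      s ∘ₗ i = LinearMap.id ∧ E.e.toLinearMapRight' = i ∘ₗ s := by
  let f : (Fin E.n → A) →ₗ[A] (Fin E.n → A) := E.e.toLinearMapRight'
  have hff : f ∘ₗ f = f := by
    change E.e.toLinearMapRight' ∘ₗ E.e.toLinearMapRight' = E.e.toLinearMapRight'
    rw [← Matrix.toLinearMapRight'_mul, E.idem]
  refine ⟨(LinearMap.range f).subtype, f.rangeRestrict, ?_, ?_⟩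
  · apply LinearMap.ext
    rintro ⟨_, v, rfl⟩
    apply Subtype.ext
    exact congrArg (fun g : (Fin E.n → A) →ₗ[A] (Fin E.n → A) => g v) hff
  · apply LinearMap.ext
    intro v
    rfl

/-- idempotent matrices with isomorphic row spaces are equivalent -/
theorem equiv_of_rowSp (E F : NK.Idem A) (e : RowSp E.e ≃ₗ[A] RowSp F.e) : E.Equiv F := by
  obtain ⟨i, s, h1, h2⟩ := rowSp_split E
  obtain ⟨j, t, h3, h4⟩ := rowSp_split F
  exact equiv_of_split e E F i s h1 h2 j t h3 h4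

/-- the coordinates -/
def TT (A : Type) [Ring A] (n q : ℕ) : (Fin (n + q) → A) ≃ₗ[A] ((Fin n → A) × (Fin q → A)) :=
  (LinearEquiv.funCongrLeft A A finSumFinEquiv).trans
    (LinearEquiv.sumArrowLequivProdArrow (Fin n) (Fin q) A A)

/-- the block sum with an identity matrix -/
def dsum {n : ℕ} (E : Matrix (Fin n) (Fin n) A) (q : ℕ) : Matrix (Fin (n + q)) (Fin (n + q)) A :=
  (Matrix.fromBlocks E 0 0 (1 : Matrix (Fin q) (Fin q) A)).submatrix
    finSumFinEquiv.symm finSumFinEquiv.symm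

theorem dsum_idem {n : ℕ} (E : Matrix (Fin n) (Fin n) A) (hE : E * E = E) (q : ℕ) :
    dsum E q * dsum E q = dsum E q := by
  unfold dsum
  rw [Matrix.submatrix_mul_equiv, Matrix.fromBlocks_multiply]
  simp only [Matrix.mul_zero, Matrix.zero_mul, add_zero, zero_add, hE, mul_one]

theorem dsum_sum (E : NK.Idem A) (q : ℕ) :
    E.sum (oneI A q) = ⟨E.n + q, dsum E.e q, dsum_idem E.e E.idem q⟩ := rfl

theorem blk' {n : ℕ} (E : Matrix (Fin n) (Fin n) A) (q : ℕ) :
    (dsum E q).toLinearMapRight' =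
      (TT A n q).symm.toLinearMap ∘ₗ (LinearMap.prodMap E.toLinearMapRight' LinearMap.id) ∘ₗ
        (TT A n q).toLinearMap := by
  have h1 := blk (k := q) E
  apply LinearMap.ext
  intro v
  have h2 := congrArg (fun g => g ((LinearEquiv.funCongrLeft A A finSumFinEquiv) v)) h1
  simp only [LinearMap.comp_apply, LinearEquiv.coe_coe] at h2
  have h3 : (dsum E q).toLinearMapRight' v =
      (LinearEquiv.funCongrLeft A A finSumFinEquiv).symm
        ((Matrix.fromBlocks E 0 0 (1 : Matrix (Fin q) (Fin q) A)).toLinearMapRight'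
          ((LinearEquiv.funCongrLeft A A finSumFinEquiv) v)) := by
    rw [Matrix.toLinearMapRight'_apply, Matrix.toLinearMapRight'_apply]
    unfold dsum
    rw [Matrix.submatrix_vecMul_equiv]
    rfl
  rw [h3, ← h2]
  rfl

theorem dsum_split {n : ℕ} (E : Matrix (Fin n) (Fin n) A) (hE : E * E = E) (q : ℕ) :
    ∃ (I : (RowSp E × (Fin q → A)) →ₗ[A] (Fin (n + q) → A))
      (S : (Fin (n + q) → A) →ₗ[A] (RowSp E × (Fin q → A))),
      S ∘ₗ I = LinearMap.id ∧ (dsum E q).toLinearMapRight' = I ∘ₗ S := by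
  obtain ⟨i, s, h1, h2⟩ := rowSp_split (⟨n, E, hE⟩ : NK.Idem A)
  have h1' : ∀ x, s (i x) = x := fun x => congrArg (fun g => g x) h1
  refine ⟨(TT A n q).symm.toLinearMap ∘ₗ LinearMap.prodMap i LinearMap.id,
    LinearMap.prodMap s LinearMap.id ∘ₗ (TT A n q).toLinearMap, ?_, ?_⟩
  · apply LinearMap.ext
    intro x
    rw [LinearMap.comp_apply, LinearMap.comp_apply, LinearMap.comp_apply, LinearEquiv.coe_coe,
      LinearEquiv.coe_coe, LinearEquiv.apply_symm_apply]
    simp [h1']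
  · rw [blk']
    have h2' : E.toLinearMapRight' = i ∘ₗ s := h2
    rw [h2']
    apply LinearMap.ext
    intro x
    rfl

/-- the row space of the block sum with an identity matrix -/
theorem equiv_sum (E F : NK.Idem A) (q : ℕ) (e : RowSp F.e ≃ₗ[A] (RowSp E.e × (Fin q → A))) :
    F.Equiv (E.sum (oneI A q)) := by
  obtain ⟨j, t, h3, h4⟩ := rowSp_split F
  obtain ⟨I, S, h1, h2⟩ := dsum_split E.e E.idem q
  exact equiv_of_split e F (E.sum (oneI A q)) j t h3 h4 I S h1 h2

theorem cls_sum_one (E F : NK.Idem A) (q : ℕ) (e : RowSp F.e ≃ₗ[A] (RowSp E.e × (Fin q → A))) :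
    NK.cls F = NK.cls E + NK.cls (oneI A q) := by
  rw [NK.cls_eq (equiv_sum E F q e), NK.cls_sum]

/-- the row space of the block sum -/
theorem rowSp_sum {n : ℕ} (E : Matrix (Fin n) (Fin n) A) (hE : E * E = E) (q : ℕ) :
    Nonempty ((RowSp E × (Fin q → A)) ≃ₗ[A] RowSp (dsum E q)) := by
  obtain ⟨I, S, h1, h2⟩ := dsum_split E hE q
  have hSI : ∀ x, S (I x) = x := fun x => congrArg (fun g => g x) h1
  have hr : LinearMap.range I = RowSp (dsum E q) := by
    unfold RowSp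
    rw [h2]
    apply le_antisymm
    · rintro _ ⟨x, rfl⟩
      exact ⟨I x, by rw [LinearMap.comp_apply, hSI]⟩
    · rintro _ ⟨x, rfl⟩
      exact ⟨S x, rfl⟩
  have hinj : Function.Injective I := fun a b h => by
    rw [← hSI a, ← hSI b, h]
  exact ⟨(LinearEquiv.ofInjective I hinj).trans (LinearEquiv.ofEq _ _ hr)⟩

end Pool.Agent.U674.TJ
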