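import Pool.Agent.U674.TJ.Flat
import Pool.Agent.U674.TJ.Kcls
import Pool.Agent.U181.TG.Fields

/-!
# Trinomial left ideals and the canonical map `K₀(R) → K₀(R[Γ])`
-/

set_option autoImplicit false

namespace Pool.Agent.U674.TJ

open MonoidAlgebra Monoid.Coprod Matrix Pool.Agent.U181.TG Pool.Agent.Y75
open Pool.Agent.U674.TI (RowSp exists_idem rowSp_projective torsionFree_GF)

/-- the class in `K₀(R[Γ])` of the module `P` (that is, of an idempotent matrix with row space isomorphic
to `P`) is in the image of `K₀(R)` -/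
def ClassExt (R : Type) [Ring R] (Γ : Type) [Group Γ] (P : Type) [AddCommGroup P]
    [Module (MonoidAlgebra R Γ) P] : Prop :=
  ∃ (n : ℕ) (E : Matrix (Fin n) (Fin n) (MonoidAlgebra R Γ)) (hE : E * E = E),
    Nonempty (P ≃ₗ[MonoidAlgebra R Γ] RowSp E) ∧ NK.cls ⟨n, E, hE⟩ ∈ (canon R Γ).range

/-- the classes of the projective left ideals of `R[Γ]` generated by finitely many elements `1 + a + c b`,
with `a, b ∈ Γ` and `c ∈ T` or `c = 1`, are in the image of `K₀(R)` -/
def TrinoExt (R : Type) [Ring R] (T : Set R) (Γ : Type) [Group Γ] : Prop :=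
  ∀ (r : ℕ) (a b : Fin r → Γ) (c : Fin r → R), (∀ i, c i ∈ T ∨ c i = 1) →
    Module.Projective (MonoidAlgebra R Γ) (triIdeal a b c) → ClassExt R Γ (triIdeal a b c)

/-- the direct sum of the row space of the matrix `E` over `R[H]` (for the homomorphism `f : G → H`) and
the free module of rank `q` is isomorphic to a left ideal generated by `r` elements `1 + a_i + c_i b_i`
with `a_i, b_i ∈ H` -/
def TriIso {R : Type} [Ring R] {G : Type} [Group G] {n : ℕ}
    (E : Matrix (Fin n) (Fin n) (MonoidAlgebra R G)) (q : ℕ) {r : ℕ} (c : Fin r → R)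
    {H : Type} [Group H] (f : G →* H) : Prop :=
  ∃ a b : Fin r → H, Nonempty (↥(triIdeal a b c) ≃ₗ[MonoidAlgebra R H]
    (RowSp (E.map (gr R f)) × (Fin q → MonoidAlgebra R H)))

/-- `E` is an idempotent matrix over `R[G]`. There are `m`, `q`, `r` and `c_i` (`i < r`) with `c_i ∈ T` or
`c_i = 1` such that over every group `H` which contains the free product of `G` and a free group of rank
`m` the direct sum of the extension of the row space of `E` and the free module of rank `q` is
isomorphic to a left ideal of `R[H]` generated by elements `1 + a_i + c_i b_i`, `a_i, b_i ∈ H`. -/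
def ByTrinomials {R : Type} [Ring R] (T : Set R) {G : Type} [Group G] {n : ℕ}
    (E : Matrix (Fin n) (Fin n) (MonoidAlgebra R G)) : Prop :=
  ∃ (m q r : ℕ) (c : Fin r → R), (∀ i, c i ∈ T ∨ c i = 1) ∧
    ∀ (H : Type) [Group H] (ψ : GF G (Fin m) →* H), Function.Injective ψ →
      TriIso E q c (ψ.comp inl)

/-- the canonical maps are bijective for all groups in the class -/
def BijC (C : ∀ (G : Type) [Group G], Prop) (R : Type) [Ring R] : Prop :=
  ∀ (Γ : Type) [Group Γ], C Γ → Function.Bijective (canon R Γ)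

/-- the condition on the left ideals for all groups in the class -/
def TrinoC (C : ∀ (G : Type) [Group G], Prop) (R : Type) [Ring R] (T : Set R) : Prop :=
  ∀ (Γ : Type) [Group Γ], C Γ → TrinoExt R T Γ

/-- the condition on the left ideals for the one group `Test C * F_ℕ` -/
def TrinoOne (C : ∀ (G : Type) [Group G], Prop) (R : Type) [Ring R] (T : Set R) : Prop :=
  TrinoExt R T (GF (Test C) ℕ)

/-- the class of groups is closed under subgroups, direct products and free products with the free group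
of countable rank -/
def ClosedF (C : ∀ (G : Type) [Group G], Prop) : Prop :=
  ClosedSP C ∧ ∀ (G : Type) [Group G], C G → C (GF G ℕ)

theorem oneI_mem (R : Type) [Ring R] (Γ : Type) [Group Γ] (q : ℕ) :
    NK.cls (oneI (MonoidAlgebra R Γ) q) ∈ (canon R Γ).range :=
  ⟨NK.cls (oneI R q), by
    unfold canon
    rw [NK.K0.map_cls, map_oneI]⟩

theorem map_id_gr {R : Type} [Ring R] {G : Type} [Group G] {n : ℕ}
    (E : Matrix (Fin n) (Fin n) (MonoidAlgebra R G)) : E.map (gr R (MonoidHom.id G)) = E := by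
  ext1 i j
  simp only [Matrix.map_apply, gr, MonoidAlgebra.mapDomainRingHom_id]
  rfl

/-- from the trinomial left ideals to all classes -/
theorem surj_of_trino {R : Type} [Ring R] {T : Set R} (hT : Subring.closure T = ⊤)
    {G : Type} [Group G] (h : TrinoExt R T (GF G ℕ)) : Function.Surjective (canon R G) := by
  rw [canon_surj_iff]
  intro n E hE
  obtain ⟨m, q, r, c, hc, hm⟩ := main1 hT E hE
  obtain ⟨a, b, ⟨f⟩⟩ := hm ℕ (fun i => (i : ℕ)) Fin.val_injective
  have hE' : E.map (io R G ℕ) * E.map (io R G ℕ) = E.map (io R G ℕ) := by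
    rw [← Matrix.map_mul, hE]
  have hpr : Module.Projective (RR R G ℕ) (triIdeal a b c) := by
    have := rowSp_projective (E.map (io R G ℕ)) hE'
    have h2 : Module.Projective (RR R G ℕ)
        (RowSp (E.map (io R G ℕ)) × (Fin q → RR R G ℕ)) := inferInstance
    exact Module.Projective.of_equiv f.symm
  obtain ⟨n', E', hE'', ⟨g⟩, hcls⟩ := h r a b c hc hpr
  have h1 := cls_sum_one (⟨n, E.map (io R G ℕ), hE'⟩ : NK.Idem (RR R G ℕ)) ⟨n', E', hE''⟩ q
    (g.symm.trans f)
  rw [h1] at hcls
  have h2 : NK.cls (⟨n, E.map (io R G ℕ), hE'⟩ : NK.Idem (RR R G ℕ)) ∈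
      (canon R (GF G ℕ)).range := by
    have h3 := AddSubgroup.sub_mem _ hcls (oneI_mem R (GF G ℕ) q)
    rwa [add_sub_cancel_right] at h3
  obtain ⟨y, hy⟩ := h2
  refine ⟨y, ?_⟩
  have h4 := canon_nat R (Monoid.Coprod.fst : GF G ℕ →* G) y
  rw [hy, NK.K0.map_cls] at h4
  rw [← h4]
  congr 1
  unfold NK.Idem.map
  congr 1
  have h5 := map_map_gr (R := R) (inl : G →* GF G ℕ) (Monoid.Coprod.fst : GF G ℕ →* G) E
  have h6 : (Monoid.Coprod.fst : GF G ℕ →* G).comp inl = MonoidHom.id G := by
    ext g
    simp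
  rw [h6, map_id_gr] at h5
  exact h5

/-- from surjectivity to the left ideals -/
theorem trino_of_surj {R : Type} [Ring R] {T : Set R} {G : Type} [Group G]
    (h : Function.Surjective (canon R G)) : TrinoExt R T G := by
  intro r a b c _ hp
  have hf : Module.Finite (MonoidAlgebra R G) (triIdeal a b c) := by
    rw [Module.Finite.iff_fg]
    exact ⟨(Set.finite_range _).toFinset, by rw [Set.Finite.coe_toFinset]; rfl⟩
  obtain ⟨n, E, hE, he⟩ := exists_idem _ hf hp
  exact ⟨n, E, hE, he, h _⟩

theorem closedF_torsionFree : ClosedF (fun G _ => TorsionFree G) := by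
  refine ⟨closedSP_torsionFree, fun G _ hG g m hm h => ?_⟩
  refine torsionFree_GF (G := G) (k := ℕ) (fun x hx => ?_) g
    (isOfFinOrder_iff_pow_eq_one.2 ⟨m, hm, h⟩)
  obtain ⟨i, hi, h1⟩ := isOfFinOrder_iff_pow_eq_one.1 hx
  exact hG x i hi h1

theorem countable_GF (G : Type) [Group G] [Countable G] : Countable (GF G ℕ) := by
  have h1 : Countable (FreeGroup ℕ) :=
    (Quot.mk_surjective (r := FreeGroup.Red.Step (α := ℕ))).countable
  have h2 : Countable (FreeMonoid (G ⊕ FreeGroup ℕ)) :=
    inferInstanceAs (Countable (List (G ⊕ FreeGroup ℕ)))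
  exact (Monoid.Coprod.mk_surjective (M := G) (N := FreeGroup ℕ)).countable

theorem can_tfae {R : Type} [Ring R] {T : Set R} (hT : Subring.closure T = ⊤)
    {C : ∀ (G : Type) [Group G], Prop} (hC : ClosedF C) :
    List.TFAE [BijC C R, TrinoC C R T, TrinoOne C R T] := by
  tfae_have 1 → 2 := fun h Γ _ hΓ => trino_of_surj (h Γ hΓ).2
  tfae_have 2 → 3 := fun h => h _ (hC.2 _ (class_test hC.1))
  tfae_have 3 → 1 := fun h => by
    have h1 : Function.Bijective (canon R (Test C)) := ⟨canon_injective R _, surj_of_trino hT h⟩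
    exact ((canon_tfae R hC.1).out 2 0).1 h1
  tfae_finish

end Pool.Agent.U674.TJ
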