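import Pool.Agent.U674.TJ.Iso
import Pool.Agent.U181.TG.Base

/-!
# The left ideals over all groups which contain the free product
-/

set_option autoImplicit false

namespace Pool.Agent.U674.TJ

open MonoidAlgebra Monoid.Coprod Matrix Pool.Agent.U181.TG

variable {R : Type} [Ring R] {T : Set R} {G : Type} [Group G] {n : ℕ} {k : Type}

section cut

variable {Γ H : Type} [Group Γ] [Group H] (ψ : Γ →* H) (hψ : Function.Injective ψ)

/-- the coefficients at the elements of a coset -/
noncomputable def cut (τ : H) : MonoidAlgebra R H →+ MonoidAlgebra R Γ where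
  toFun r := MonoidAlgebra.ofCoeff
    (Finsupp.comapDomain (fun γ => τ * ψ γ) r.coeff
      (fun a _ b _ h => hψ (mul_left_cancel h)))
  map_zero' := by
    apply MonoidAlgebra.coeff_injective
    ext γ
    simp [Finsupp.comapDomain_apply]
  map_add' x y := by
    apply MonoidAlgebra.coeff_injective
    ext γ
    simp [Finsupp.comapDomain_apply]

theorem cut_coeff (τ : H) (r : MonoidAlgebra R H) (γ : Γ) :
    (cut ψ hψ τ r).coeff γ = r.coeff (τ * ψ γ) := rfl

theorem cut_mul (τ : H) (r : MonoidAlgebra R H) (s : MonoidAlgebra R Γ) :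
    cut ψ hψ τ (r * gr R ψ s) = cut ψ hψ τ r * s := by
  induction s using MonoidAlgebra.induction_linear with
  | zero => rw [map_zero, mul_zero, mul_zero, map_zero]
  | add x y hx hy => rw [map_add, mul_add, mul_add, map_add, hx, hy]
  | single δ c =>
    have h1 : gr R ψ (MonoidAlgebra.single δ c) = MonoidAlgebra.single (ψ δ) c := by
      simp [gr]
    rw [h1]
    apply MonoidAlgebra.coeff_injective
    ext γ
    rw [cut_coeff, MonoidAlgebra.coeff_mul_single_apply, MonoidAlgebra.coeff_mul_single_apply,
      cut_coeff, map_mul ψ, map_inv ψ, ← mul_assoc τ]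

/-- the same for vectors -/
noncomputable def cutV (n : ℕ) (τ : H) :
    (MM R G n →₀ MonoidAlgebra R H) →+ (MM R G n →₀ MonoidAlgebra R Γ) :=
  Finsupp.mapRange.addMonoidHom (cut ψ hψ τ)

theorem cutV_apply (τ : H) (a : MM R G n →₀ MonoidAlgebra R H) (z : MM R G n) :
    cutV ψ hψ n τ a z = cut ψ hψ τ (a z) := rfl

theorem vec_comp {S S' : Type} [Ring S] [Ring S'] (ι : MonoidAlgebra R G →+* S) (σ : S →+* S')
    (l : Rel R G n) (z : MM R G n) : vec (σ.comp ι) l z = σ (vec ι l z) := by
  classical
  simp only [vec, Finsupp.add_apply, Finsupp.single_apply, map_add, RingHom.comp_apply]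
  split_ifs <;> simp

theorem cutV_smul_vec (τ : H) (r : MonoidAlgebra R H) (ι : MonoidAlgebra R G →+* MonoidAlgebra R Γ)
    (l : Rel R G n) :
    cutV ψ hψ n τ (r • vec ((gr R ψ).comp ι) l) = cut ψ hψ τ r • vec ι l := by
  ext1 z
  rw [cutV_apply, Finsupp.smul_apply, Finsupp.smul_apply, smul_eq_mul, smul_eq_mul, vec_comp,
    cut_mul]

theorem eq_zero_of_cut (r : MonoidAlgebra R H) (h : ∀ τ, cut ψ hψ τ r = 0) : r = 0 := by
  apply MonoidAlgebra.coeff_injective
  ext τ
  have h1 := congrArg (fun x : MonoidAlgebra R Γ => x.coeff 1) (h τ)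
  simp only [cut_coeff, map_one, mul_one] at h1
  rw [h1]
  simp

end cut

section overgroup

variable {H : Type} [Group H] (ψ : GF G k →* H)

/-- the inclusion of the group ring of `G` -/
noncomputable abbrev iH (R : Type) [Ring R] : MonoidAlgebra R G →+* MonoidAlgebra R H :=
  (gr R ψ).comp (io R G k)

/-- the elements of the group ring -/
noncomputable def thH (idx : MM R G n → k) :
    (MM R G n →₀ MonoidAlgebra R H) →ₗ[MonoidAlgebra R H] MonoidAlgebra R H :=
  Finsupp.linearCombination (MonoidAlgebra R H) fun x =>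
    MonoidAlgebra.single (ψ (yy G (idx x))) (1 : R)

theorem thH_single (idx : MM R G n → k) (x : MM R G n) (a : MonoidAlgebra R H) :
    thH ψ idx (Finsupp.single x a) = a * MonoidAlgebra.single (ψ (yy G (idx x))) (1 : R) := by
  simp [thH, Finsupp.linearCombination_single]

theorem gr_single {Γ H : Type} [Group Γ] [Group H] (f : Γ →* H) (g : Γ) (c : R) :
    gr R f (MonoidAlgebra.single g c) = MonoidAlgebra.single (f g) c := by
  simp [gr]

theorem cut_thH (hψ : Function.Injective ψ) (τ : H) (idx : MM R G n → k)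
    (a : MM R G n →₀ MonoidAlgebra R H) :
    cut ψ hψ τ (thH ψ idx a) = th idx (cutV ψ hψ n τ a) := by
  induction a using Finsupp.induction_linear with
  | zero => rw [map_zero, map_zero, map_zero, map_zero]
  | add x y hx hy => rw [map_add, map_add, map_add, map_add, hx, hy]
  | single z b =>
    have h1 : cutV ψ hψ n τ (Finsupp.single z b) = Finsupp.single z (cut ψ hψ τ b) := by
      unfold cutV
      exact Finsupp.mapRange_single (hf := map_zero _)
    rw [h1, thH_single, th_single, ← gr_single, cut_mul]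

theorem thH_inj (hψ : Function.Injective ψ) (v : k → MM R G n) (w : k → R × R) (s t : k → R)
    (h : ∀ i, (w i).1 * s i + (w i).2 * t i = 1) (idx : MM R G n → k) (hv : ∀ i, w i = cl (v i))
    {ι' : Type} (l : ι' → Rel R G n) (hx : ∀ i, v (idx (l i).x) = (l i).x)
    (hy : ∀ i, v (idx (l i).y) = (l i).y)
    (hw : ∀ i, v (idx (l i).w) = (l i).w) (h0 : ∀ i, cl (l i).val = 0)
    (a : MM R G n →₀ MonoidAlgebra R H)
    (ha : a ∈ Submodule.span (MonoidAlgebra R H) (Set.range fun i => vec (iH ψ R) (l i)))
    (hth : thH ψ idx a = 0) : a = 0 := by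
  have key : ∀ τ, cutV ψ hψ n τ a = 0 := by
    intro τ
    refine th_inj v w s t h idx hv l hx hy hw h0 _ ?_ ?_
    · have h1 : ∀ a ∈ Submodule.span (MonoidAlgebra R H) (Set.range fun i => vec (iH ψ R) (l i)),
          ∀ r : MonoidAlgebra R H, cutV ψ hψ n τ (r • a) ∈
            Submodule.span (RR R G k) (Set.range fun i => vec (io R G k) (l i)) := by
        intro a ha
        induction ha using Submodule.span_induction with
        | mem a ha =>
          obtain ⟨i, rfl⟩ := ha
          intro r
          rw [cutV_smul_vec]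
          exact Submodule.smul_mem _ _ (Submodule.subset_span ⟨i, rfl⟩)
        | zero =>
          intro r
          rw [smul_zero, map_zero]
          exact zero_mem _
        | add a b _ _ ha hb =>
          intro r
          rw [smul_add, map_add]
          exact add_mem (ha r) (hb r)
        | smul c a _ ha =>
          intro r
          rw [smul_smul]
          exact ha _
      have h2 := h1 a ha 1
      rwa [one_smul] at h2
    · rw [← cut_thH, hth, map_zero]
  ext1 z
  apply eq_zero_of_cut ψ hψ
  intro τ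
  rw [← cutV_apply, key]
  rfl

theorem thH_vec (idx : MM R G n → k) (l : Rel R G n) :
    thH ψ idx (vec (iH ψ R) l) = MonoidAlgebra.single (ψ (yy G (idx l.x))) (1 : R) *
      (1 + MonoidAlgebra.single (ψ ((yy G (idx l.x))⁻¹ * inl l.g * yy G (idx l.y))) (1 : R) +
        MonoidAlgebra.single (ψ ((yy G (idx l.x))⁻¹ * inl l.h * yy G (idx l.w))) l.c) := by
  have hg : ∀ u g v : H, u * (u⁻¹ * g * v) = g * v := by
    intro u g v
    group
  have h1 : ∀ (g : G) (c : R), iH ψ R (sg g c) = MonoidAlgebra.single (ψ (inl g)) c := by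
    intro g c
    rw [RingHom.comp_apply, io_sg, gr_single]
  unfold vec
  rw [map_add, map_add, thH_single, thH_single, thH_single, one_mul, mul_add, mul_add, mul_one,
    h1, h1, MonoidAlgebra.single_mul_single, MonoidAlgebra.single_mul_single,
    MonoidAlgebra.single_mul_single, MonoidAlgebra.single_mul_single]
  simp only [map_mul, map_inv, hg, mul_one, one_mul]

end overgroup

/-- **Every finitely generated projective module is, up to a free direct summand, a left ideal
generated by trinomials**, over every group which contains `G * F`. -/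
theorem main1H (hT : Subring.closure T = ⊤) (E : Matrix (Fin n) (Fin n) (MonoidAlgebra R G))
    (hE : E * E = E) :
    ∃ (m q r : ℕ) (c : Fin r → R), (∀ i, c i ∈ T ∨ c i = 1) ∧
      ∀ (H : Type) [Group H] (ψ : GF G (Fin m) →* H), Function.Injective ψ →
        ∃ a b : Fin r → H, Nonempty (↥(triIdeal a b c) ≃ₗ[MonoidAlgebra R H]
          (↥(LinearMap.range (E.map (gr R (ψ.comp inl))).toLinearMapRight') ×
            (Fin q → MonoidAlgebra R H))) := by
  classical
  obtain ⟨V, q, l, H, ht⟩ := exists_good (m := n) hT E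
  obtain ⟨m, ⟨e⟩⟩ := @Finite.exists_equiv_fin V H.fin.to_subtype
  let lam : Fin q ⊕ Fin n → Rel R G n := Sum.elim l (fun k => kl (E k))
  let f := (finSumFinEquiv (m := q) (n := n)).symm
  refine ⟨m, q, q + n, fun i => (lam (f i)).c, ?_, fun Hh _ ψ hψ => ?_⟩
  · intro i
    show (lam (f i)).c ∈ T ∨ (lam (f i)).c = 1
    rcases f i with a | a
    · exact H.hc a
    · exact Or.inr rfl
  let v : Fin m → MM R G n := fun i => (e.symm i : MM R G n)
  have hv : ∀ i, v i ∈ V := fun i => (e.symm i).2
  let idx : MM R G n → Fin m := fun x => if h : x ∈ V then e ⟨x, h⟩ else e ⟨z1 R G n, H.hz1⟩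
  have hidx : ∀ x ∈ V, v (idx x) = x := by
    intro x hx
    have h1 : idx x = e ⟨x, hx⟩ := dif_pos hx
    show ((e.symm (idx x) : V) : MM R G n) = x
    rw [h1, Equiv.symm_apply_apply]
  have hadm : ∀ i, Adm (cl (v i)) := fun i => H.hadm _ (hv i)
  choose s t hst using hadm
  have hlx : ∀ i, v (idx (lam i).x) = (lam i).x := by
    rintro (i | i)
    · exact hidx _ (H.hx i)
    · exact hidx _ (ht i)
  have hly : ∀ i, v (idx (lam i).y) = (lam i).y := by
    rintro (i | i)
    · exact hidx _ (H.hy i)
    · exact hidx _ H.hz1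
  have hlw : ∀ i, v (idx (lam i).w) = (lam i).w := by
    rintro (i | i)
    · exact hidx _ (H.hw i)
    · exact hidx _ H.hz2
  have hl0 : ∀ i, cl (lam i).val = 0 := by
    rintro (i | i)
    · show cl (l i).val = 0
      rw [H.hval, cl_zero]
    · show cl (kl (E i)).val = 0
      rw [kl_val, cl_neg_row]
  have hEm : E.map (iH ψ R) = E.map (gr R (ψ.comp inl)) := by
    ext1 i j
    simp only [Matrix.map_apply, RingHom.comp_apply]
    show gr R ψ (gr R inl (E i j)) = _
    rw [gr, gr, gr, MonoidAlgebra.mapDomainRingHom_comp]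
    rfl
  rw [← hEm]
  have hrange := range_Phi (iH ψ R) E hE H ht
  let F : (↥(LinearMap.range (E.map (iH ψ R)).toLinearMapRight') × (Fin q → MonoidAlgebra R Hh))
      →ₗ[MonoidAlgebra R Hh] MonoidAlgebra R Hh := (thH ψ idx).comp (Phi (iH ψ R) E l)
  have hF : Function.Injective F := by
    rw [← LinearMap.ker_eq_bot, LinearMap.ker_eq_bot']
    intro x hx
    have h1 : Phi (iH ψ R) E l x = 0 := by
      refine thH_inj ψ hψ v (fun i => cl (v i)) s t hst idx (fun i => rfl) lam hlx hly hlw hl0 _ ?_
        hx
      rw [← hrange]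
      exact ⟨x, rfl⟩
    have h2 := sm_Phi (iH ψ R) E hE l H.hval x
    rw [h1, map_zero] at h2
    have h3 : x.1 = 0 := Subtype.ext (congrArg Prod.fst h2).symm
    have h4 : Fintype.linearCombination (MonoidAlgebra R Hh)
        (fun i => vec (iH ψ R) (l i)) x.2 = 0 := by
      have h5 := h1
      unfold Phi at h5
      rw [LinearMap.coprod_apply, h3, map_zero, zero_add] at h5
      exact h5
    have h6 : x.2 = 0 := by
      have h7 := H.li (MonoidAlgebra R Hh) (iH ψ R)
      rw [Fintype.linearCombination_apply] at h4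
      exact funext (Fintype.linearIndependent_iff.1 h7 x.2 h4)
    exact Prod.ext h3 h6
  let a : Fin (q + n) → Hh := fun i =>
    ψ ((yy G (idx (lam (f i)).x))⁻¹ * inl (lam (f i)).g * yy G (idx (lam (f i)).y))
  let b : Fin (q + n) → Hh := fun i =>
    ψ ((yy G (idx (lam (f i)).x))⁻¹ * inl (lam (f i)).h * yy G (idx (lam (f i)).w))
  have hI : LinearMap.range F = triIdeal a b (fun i => (lam (f i)).c) := by
    have h1 : LinearMap.range F = Submodule.span (MonoidAlgebra R Hh)
        (Set.range fun i => thH ψ idx (vec (iH ψ R) (lam i))) := by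
      show LinearMap.range ((thH ψ idx).comp (Phi (iH ψ R) E l)) = _
      rw [LinearMap.range_comp, hrange, Submodule.map_span, ← Set.range_comp]
      rfl
    rw [h1]
    apply le_antisymm
    · rw [Submodule.span_le]
      rintro _ ⟨i, rfl⟩
      show thH ψ idx (vec (iH ψ R) (lam i)) ∈ triIdeal a b (fun i => (lam (f i)).c)
      rw [thH_vec]
      refine Ideal.mul_mem_left _ _ (Ideal.subset_span ⟨f.symm i, ?_⟩)
      simp only [a, b, Equiv.apply_symm_apply]
    · unfold triIdeal
      refine Ideal.span_le.2 ?_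
      rintro _ ⟨i, rfl⟩
      have h2 : thH ψ idx (vec (iH ψ R) (lam (f i))) ∈ Submodule.span (MonoidAlgebra R Hh)
        (Set.range fun i => thH ψ idx (vec (iH ψ R) (lam i))) := Submodule.subset_span ⟨f i, rfl⟩
      rw [thH_vec] at h2
      have h3 := Submodule.smul_mem _
        (MonoidAlgebra.single (ψ (yy G (idx (lam (f i)).x)))⁻¹ (1 : R)) h2
      rw [smul_eq_mul, ← mul_assoc, MonoidAlgebra.single_mul_single, inv_mul_cancel, mul_one,
        show (MonoidAlgebra.single (1 : Hh) (1 : R)) = 1 from rfl, one_mul] at h3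
      exact h3
  exact ⟨a, b, ⟨((LinearEquiv.ofInjective F hF).trans (LinearEquiv.ofEq _ _ hI)).symm⟩⟩

end Pool.Agent.U674.TJ
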