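import Pool.Agent.U674.TJ.Reach

/-!
# The vectors are determined by the elements of the left ideal, general coefficients
-/

set_option autoImplicit false

namespace Pool.Agent.U674.TJ

open MonoidAlgebra Monoid.Coprod

variable {R : Type} [Ring R] {G : Type} [Group G] {n : ℕ} {k : Type}

/-- the group -/
abbrev GF (G : Type) [Group G] (k : Type) : Type := Monoid.Coprod G (FreeGroup k)

/-- the group ring -/
abbrev RR (R : Type) [Ring R] (G : Type) [Group G] (k : Type) : Type := MonoidAlgebra R (GF G k)

/-- the inclusion of the group ring of `G` -/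
noncomputable abbrev io (R : Type) [Ring R] (G : Type) [Group G] (k : Type) :
    MonoidAlgebra R G →+* RR R G k :=
  MonoidAlgebra.mapDomainRingHom R (inl : G →* GF G k)

/-- the free generators -/
def yy (G : Type) [Group G] (i : k) : GF G k := inr (FreeGroup.of i)

/-- the module -/
abbrev XX (R : Type) [Ring R] (G : Type) [Group G] (n : ℕ) (k : Type) : Type :=
  (MM R G n →₀ RR R G k) × R × (R × R)

theorem mul_smul_r {Γ : Type} [Group Γ] (γ : Γ) (r : R) (a : MonoidAlgebra R Γ) :
    MonoidAlgebra.single γ (1 : R) * (r • a) = r • (MonoidAlgebra.single γ (1 : R) * a) := by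
  ext z
  simp

theorem smul_r {Γ : Type} [Group Γ] {ι : Type} (γ : Γ) (r : R) (a : ι →₀ MonoidAlgebra R Γ) :
    MonoidAlgebra.single γ (1 : R) • (r • a) = r • (MonoidAlgebra.single γ (1 : R) • a) := by
  ext1 z
  simp only [Finsupp.smul_apply, smul_eq_mul, mul_smul_r]

theorem single_smul' {Γ : Type} [Group Γ] {ι : Type} (γ : Γ) (r : R) (a : ι →₀ MonoidAlgebra R Γ) :
    MonoidAlgebra.single γ r • a = r • (MonoidAlgebra.single γ (1 : R) • a) := by
  ext1 z
  simp only [Finsupp.smul_apply, smul_eq_mul]
  ext x
  simp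

theorem sg_inv {Γ : Type} [Group Γ] {ι : Type} (γ : Γ) (a : ι →₀ MonoidAlgebra R Γ) :
    MonoidAlgebra.single γ⁻¹ (1 : R) • (MonoidAlgebra.single γ (1 : R) • a) = a := by
  rw [smul_smul, MonoidAlgebra.single_mul_single, inv_mul_cancel, mul_one,
    show (MonoidAlgebra.single (1 : Γ) (1 : R)) = 1 from rfl, one_smul]

theorem sg_inv' {Γ : Type} [Group Γ] {ι : Type} (γ : Γ) (a : ι →₀ MonoidAlgebra R Γ) :
    MonoidAlgebra.single γ (1 : R) • (MonoidAlgebra.single γ⁻¹ (1 : R) • a) = a := by
  rw [smul_smul, MonoidAlgebra.single_mul_single, mul_inv_cancel, mul_one,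
    show (MonoidAlgebra.single (1 : Γ) (1 : R)) = 1 from rfl, one_smul]

/-- multiplication in the first component -/
noncomputable def dg (R : Type) [Ring R] (n : ℕ) (γ : GF G k) : XX R G n k ≃ₗ[R] XX R G n k where
  toFun x := (MonoidAlgebra.single γ (1 : R) • x.1, x.2)
  map_add' x y := by simp [smul_add]
  map_smul' q x := by
    apply Prod.ext
    · exact smul_r _ _ _
    · rfl
  invFun x := (MonoidAlgebra.single γ⁻¹ (1 : R) • x.1, x.2)
  left_inv x := by
    apply Prod.ext
    · exact sg_inv _ _
    · rfl
  right_inv x := by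
    apply Prod.ext
    · exact sg_inv' _ _
    · rfl

/-- multiplication in the first component, as a homomorphism -/
noncomputable def dgH (R : Type) [Ring R] (G : Type) [Group G] (n : ℕ) (k : Type) :
    GF G k →* (XX R G n k ≃ₗ[R] XX R G n k) where
  toFun := dg R n
  map_one' := by
    apply LinearEquiv.ext
    intro x
    apply Prod.ext
    · show MonoidAlgebra.single (1 : GF G k) (1 : R) • x.1 = x.1
      rw [show (MonoidAlgebra.single (1 : GF G k) (1 : R)) = 1 from rfl, one_smul]
    · rfl
  map_mul' a b := by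
    apply LinearEquiv.ext
    intro x
    apply Prod.ext
    · show MonoidAlgebra.single (a * b) (1 : R) • x.1 =
        MonoidAlgebra.single a (1 : R) • MonoidAlgebra.single b (1 : R) • x.1
      rw [smul_smul, MonoidAlgebra.single_mul_single, mul_one]
    · rfl

/-- the functional -/
def Fn (s t : R) (x : R × (R × R)) : R := x.1 + x.2.1 * s + x.2.2 * t

theorem Fn_add (s t : R) (x y : R × (R × R)) : Fn s t (x + y) = Fn s t x + Fn s t y := by
  simp only [Fn, Prod.fst_add, Prod.snd_add, add_mul]
  abel

theorem Fn_smul (s t : R) (q : R) (x : R × (R × R)) : Fn s t (q • x) = q * Fn s t x := by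
  simp only [Fn, Prod.smul_fst, Prod.smul_snd, smul_eq_mul, mul_add, mul_assoc]

theorem Fn_to (s t : R) (w : R × R) (h : w.1 * s + w.2 * t = 1) (x : R × (R × R)) :
    Fn s t (x.1 - Fn s t x, x.2 + Fn s t x • w) = Fn s t x := by
  have h1 : Fn s t (x.1 - Fn s t x, x.2 + Fn s t x • w) =
      Fn s t x - Fn s t x + Fn s t x * (w.1 * s + w.2 * t) := by
    simp only [Fn, Prod.fst_add, Prod.snd_add, Prod.smul_fst, Prod.smul_snd, smul_eq_mul]
    noncomm_ring
  rw [h1, h, mul_one, sub_self, zero_add]

theorem Fn_inv (s t : R) (w : R × R) (h : w.1 * s + w.2 * t = 1) (x : R × (R × R)) :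
    Fn s t (x.1 + Fn s t x, x.2 - Fn s t x • w) = Fn s t x := by
  have h1 : Fn s t (x.1 + Fn s t x, x.2 - Fn s t x • w) =
      Fn s t x + Fn s t x - Fn s t x * (w.1 * s + w.2 * t) := by
    simp only [Fn, Prod.fst_sub, Prod.snd_sub, Prod.smul_fst, Prod.smul_snd, smul_eq_mul]
    noncomm_ring
  rw [h1, h, mul_one, add_sub_cancel_right]

/-- the action of a free generator -/
noncomputable def gn (i : k) (v : MM R G n) (w : R × R) (s t : R) (h : w.1 * s + w.2 * t = 1) :
    XX R G n k ≃ₗ[R] XX R G n k where
  toFun x := (MonoidAlgebra.single (yy G i) (1 : R) • x.1 +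
    Finsupp.single v (MonoidAlgebra.single 1 x.2.1), x.2.1 - Fn s t x.2, x.2.2 + Fn s t x.2 • w)
  map_add' x y := by
    apply Prod.ext
    · simp only [Prod.fst_add, Prod.snd_add, smul_add, MonoidAlgebra.single_add, Finsupp.single_add]
      abel
    · apply Prod.ext
      · simp only [Prod.snd_add, Prod.fst_add, Fn_add]
        abel
      · simp only [Prod.snd_add, Fn_add, add_smul]
        abel
  map_smul' q x := by
    apply Prod.ext
    · simp only [Prod.smul_fst, Prod.smul_snd, smul_add, RingHom.id_apply, smul_r,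
        Finsupp.smul_single, MonoidAlgebra.smul_single]
    · apply Prod.ext
      · simp only [Prod.smul_snd, Prod.smul_fst, RingHom.id_apply, Fn_smul, smul_eq_mul, mul_sub]
      · simp only [Prod.smul_snd, RingHom.id_apply, Fn_smul, smul_add, mul_smul]
  invFun x := (MonoidAlgebra.single (yy G i)⁻¹ (1 : R) • (x.1 -
    Finsupp.single v (MonoidAlgebra.single 1 (x.2.1 + Fn s t x.2))),
    x.2.1 + Fn s t x.2, x.2.2 - Fn s t x.2 • w)
  left_inv x := by
    have h1 := Fn_to s t w h x.2
    apply Prod.ext
    · simp only [h1, sub_add_cancel, add_sub_cancel_right, sg_inv]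
    · apply Prod.ext
      · simp only [h1, sub_add_cancel]
      · simp only [h1, add_sub_cancel_right]
  right_inv x := by
    have h1 := Fn_inv s t w h x.2
    apply Prod.ext
    · simp only [sg_inv', sub_add_cancel]
    · apply Prod.ext
      · simp only [h1, add_sub_cancel_right]
      · simp only [h1, sub_add_cancel]

/-- the representation -/
noncomputable def rep (v : k → MM R G n) (w : k → R × R) (s t : k → R)
    (h : ∀ i, (w i).1 * s i + (w i).2 * t i = 1) :
    GF G k →* (XX R G n k ≃ₗ[R] XX R G n k) :=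
  Monoid.Coprod.lift ((dgH R G n k).comp inl)
    (FreeGroup.lift fun i => gn i (v i) (w i) (s i) (t i) (h i))

section rep

variable (v : k → MM R G n) (w : k → R × R) (s t : k → R)
  (h : ∀ i, (w i).1 * s i + (w i).2 * t i = 1)

theorem rep_inl (g : G) (x : XX R G n k) :
    rep v w s t h (inl g) x = (MonoidAlgebra.single (inl g : GF G k) (1 : R) • x.1, x.2) := by
  unfold rep
  rw [Monoid.Coprod.lift_apply_inl]
  rfl

theorem rep_yy (i : k) (x : XX R G n k) :
    rep v w s t h (yy G i) x = (MonoidAlgebra.single (yy G i) (1 : R) • x.1 +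
      Finsupp.single (v i) (MonoidAlgebra.single 1 x.2.1), x.2.1 - Fn (s i) (t i) x.2,
        x.2.2 + Fn (s i) (t i) x.2 • w i) := by
  unfold rep yy
  rw [Monoid.Coprod.lift_apply_inr, FreeGroup.lift_apply_of]
  rfl

theorem rep_w (γ : GF G k) (a : MM R G n →₀ RR R G k) :
    rep v w s t h γ (a, 0, 0) = (MonoidAlgebra.single γ (1 : R) • a, 0, 0) := by
  have hy : ∀ (i : k) (a : MM R G n →₀ RR R G k),
      rep v w s t h (yy G i) (a, 0, 0) = (MonoidAlgebra.single (yy G i) (1 : R) • a, 0, 0) := by
    intro i a
    rw [rep_yy]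
    simp [Fn]
  have hmul : ∀ a b : GF G k,
      (∀ x : MM R G n →₀ RR R G k, rep v w s t h a (x, 0, 0) =
        (MonoidAlgebra.single a (1 : R) • x, 0, 0)) →
      (∀ x : MM R G n →₀ RR R G k, rep v w s t h b (x, 0, 0) =
        (MonoidAlgebra.single b (1 : R) • x, 0, 0)) →
      ∀ x : MM R G n →₀ RR R G k, rep v w s t h (a * b) (x, 0, 0) =
        (MonoidAlgebra.single (a * b) (1 : R) • x, 0, 0) := by
    intro a b ha hb x
    rw [map_mul, LinearEquiv.mul_apply, hb, ha, smul_smul, MonoidAlgebra.single_mul_single, mul_one]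
  have hinv : ∀ a : GF G k,
      (∀ x : MM R G n →₀ RR R G k, rep v w s t h a (x, 0, 0) =
        (MonoidAlgebra.single a (1 : R) • x, 0, 0)) →
      ∀ x : MM R G n →₀ RR R G k, rep v w s t h a⁻¹ (x, 0, 0) =
        (MonoidAlgebra.single a⁻¹ (1 : R) • x, 0, 0) := by
    intro a ha x
    have h1 : rep v w s t h a (MonoidAlgebra.single a⁻¹ (1 : R) • x, 0, 0) = (x, 0, 0) := by
      rw [ha, sg_inv']
    rw [← h1, map_inv, ← LinearEquiv.mul_apply, inv_mul_cancel]
    rfl
  revert a
  induction γ using Monoid.Coprod.induction_on with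
  | inl g =>
    intro a
    rw [rep_inl]
  | inr z =>
    induction z using FreeGroup.induction_on with
    | C1 =>
      intro a
      rw [map_one, map_one, show (MonoidAlgebra.single (1 : GF G k) (1 : R)) = 1 from rfl, one_smul]
      rfl
    | of i => exact hy i
    | inv_of i _ =>
      rw [map_inv]
      exact hinv _ (hy i)
    | mul a b ha hb =>
      rw [map_mul]
      exact hmul _ _ ha hb
  | mul a b ha hb => exact hmul a b ha hb

/-- automorphisms as endomorphisms of the additive group -/
def toEnd (R : Type) [Ring R] (X : Type) [AddCommGroup X] [Module R X] :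
    (X ≃ₗ[R] X) →* AddMonoid.End X where
  toFun f := (f : X →ₗ[R] X).toAddMonoidHom
  map_one' := rfl
  map_mul' _ _ := rfl

theorem End_add {X : Type} [AddCommGroup X] (f g : AddMonoid.End X) (x : X) :
    (f + g) x = f x + g x := rfl

/-- the action of the group ring -/
noncomputable def act : RR R G k →+* AddMonoid.End (XX R G n k) :=
  MonoidAlgebra.liftNCRingHom (Module.toAddMonoidEnd R (XX R G n k))
    ((toEnd R (XX R G n k)).comp (rep v w s t h)) (fun r γ => by
      apply AddMonoidHom.ext
      intro x
      exact (map_smul (rep v w s t h γ) r x).symm)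

theorem act_single (γ : GF G k) (r : R) (x : XX R G n k) :
    act v w s t h (MonoidAlgebra.single γ r) x = r • rep v w s t h γ x := by
  unfold act
  rw [MonoidAlgebra.liftNCRingHom_single]
  rfl

theorem act_w (r : RR R G k) (a : MM R G n →₀ RR R G k) :
    act v w s t h r (a, 0, 0) = (r • a, 0, 0) := by
  induction r using MonoidAlgebra.induction_linear with
  | zero =>
    rw [map_zero, zero_smul]
    rfl
  | add x y hx hy =>
    rw [map_add, End_add, hx, hy, add_smul]
    simp
  | single γ r =>
    rw [act_single, rep_w, single_smul' γ r a]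
    simp

/-- the elements of the group ring -/
noncomputable def th (idx : MM R G n → k) : (MM R G n →₀ RR R G k) →ₗ[RR R G k] RR R G k :=
  Finsupp.linearCombination (RR R G k) fun x => MonoidAlgebra.single (yy G (idx x)) (1 : R)

theorem th_single (idx : MM R G n → k) (x : MM R G n) (a : RR R G k) :
    th idx (Finsupp.single x a) = a * MonoidAlgebra.single (yy G (idx x)) (1 : R) := by
  simp [th, Finsupp.linearCombination_single]

theorem io_sg (g : G) (c : R) :
    io R G k (MonoidAlgebra.single g c) = MonoidAlgebra.single (inl g : GF G k) c := by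
  simp [io]

/-- the value of the three terms -/
theorem act_vec (idx : MM R G n → k) (hv : ∀ i, w i = cl (v i)) (l : Rel R G n)
    (hx : v (idx l.x) = l.x) (hy : v (idx l.y) = l.y) (hw : v (idx l.w) = l.w)
    (h0 : cl l.val = 0) :
    act v w s t h (th idx (vec (io R G k) l)) (0, 1, 0) = (vec (io R G k) l, 0, 0) := by
  have key : ∀ (x : MM R G n) (g : G) (c : R), v (idx x) = x →
      act v w s t h (th idx (Finsupp.single x (io R G k (sg g c)))) (0, 1, 0) =
        (Finsupp.single x (io R G k (sg g c)), 0, c • cl x) := by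
    intro x g c hx
    rw [th_single, map_mul, io_sg]
    show act v w s t h (MonoidAlgebra.single (inl g) c)
      (act v w s t h (MonoidAlgebra.single (yy G (idx x)) (1 : R)) (0, 1, 0)) = _
    rw [act_single, act_single, rep_yy, one_smul, rep_inl, hv, hx]
    simp [Fn, MonoidAlgebra.single_mul_single]
  have h1 : cl l.x + (1 : R) • cl l.y + l.c • cl l.w = 0 := by
    rw [← h0]
    unfold Rel.val
    rw [cl_add, cl_add, cl_smul, cl_smul]
  have hx1 := key l.x 1 1 hx
  rw [show io R G k (sg (1 : G) (1 : R)) = 1 from map_one _] at hx1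
  unfold vec
  rw [map_add, map_add, map_add, map_add, End_add, End_add, hx1,
    key l.y l.g 1 hy, key l.w l.h l.c hw]
  apply Prod.ext
  · simp
  · apply Prod.ext
    · simp
    · rw [one_smul] at h1 ⊢
      simpa using h1

include h in
/-- injectivity on the span -/
theorem th_inj (idx : MM R G n → k) (hv : ∀ i, w i = cl (v i)) {ι' : Type}
    (l : ι' → Rel R G n) (hx : ∀ i, v (idx (l i).x) = (l i).x)
    (hy : ∀ i, v (idx (l i).y) = (l i).y)
    (hw : ∀ i, v (idx (l i).w) = (l i).w) (h0 : ∀ i, cl (l i).val = 0) (a : MM R G n →₀ RR R G k)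
    (ha : a ∈ Submodule.span (RR R G k) (Set.range fun i => vec (io R G k) (l i)))
    (hth : th idx a = 0) : a = 0 := by
  have key : ∀ a ∈ Submodule.span (RR R G k) (Set.range fun i => vec (io R G k) (l i)),
      act v w s t h (th idx a) (0, 1, 0) = (a, 0, 0) := by
    intro a ha
    induction ha using Submodule.span_induction with
    | mem a ha =>
      obtain ⟨i, rfl⟩ := ha
      exact act_vec v w s t h idx hv (l i) (hx i) (hy i) (hw i) (h0 i)
    | zero =>
      rw [map_zero, map_zero]
      rfl
    | add a b _ _ ha hb =>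
      rw [map_add, map_add, End_add, ha, hb]
      simp
    | smul r a _ ha =>
      rw [map_smul, smul_eq_mul, map_mul]
      show act v w s t h r (act v w s t h (th idx a) (0, 1, 0)) = _
      rw [ha, act_w]
  have h1 := key a ha
  rw [hth, map_zero] at h1
  exact (congrArg Prod.fst h1).symm

end rep

end Pool.Agent.U674.TJ
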