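import Pool.Agent.U674.TJ.Inj

/-!
# The left ideal is isomorphic to the direct sum of the projective module and a free module
-/

set_option autoImplicit false

namespace Pool.Agent.U674.TJ

open MonoidAlgebra Monoid.Coprod Matrix

/-- the left ideal generated by the elements `1 + a i + (c i) (b i)` -/
noncomputable def triIdeal {R : Type} [Ring R] {Γ : Type} [Group Γ] {r : ℕ} (a b : Fin r → Γ)
    (c : Fin r → R) : Ideal (MonoidAlgebra R Γ) :=
  Ideal.span (Set.range fun i =>
    1 + MonoidAlgebra.single (a i) (1 : R) + MonoidAlgebra.single (b i) (c i))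

variable {R : Type} [Ring R] {T : Set R} {G : Type} [Group G] {n : ℕ} {k : Type}

/-- the relations which kill the rows of the matrix -/
noncomputable def kl (ρ : Fin n → MonoidAlgebra R G) : Rel R G n :=
  ⟨tt ρ, z1 R G n, z2 R G n, 1, 1, 1⟩

theorem kl_val (ρ : Fin n → MonoidAlgebra R G) : (kl ρ).val = (-ρ, 0) := by
  unfold Rel.val kl
  rw [one_smul', one_smul']
  apply Prod.ext
  · simp [tt, z1, z2]
  · apply Prod.ext <;> simp [tt, z1, z2]

section

variable {S : Type} [Ring S] (ι : MonoidAlgebra R G →+* S)
  (E : Matrix (Fin n) (Fin n) (MonoidAlgebra R G))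

/-- the section -/
noncomputable def sec : (Fin n → S) →ₗ[S] (MM R G n →₀ S) :=
  -Fintype.linearCombination S fun k => vec ι (kl (E k))

theorem sm_sec (p : Fin n → S) : sm ι n (sec ι E p) = (p ᵥ* E.map ι, 0) := by
  unfold sec
  rw [LinearMap.neg_apply, Fintype.linearCombination_apply, map_neg, map_sum]
  have h1 : ∀ k, sm ι n (p k • vec ι (kl (E k))) = (-(fun i => p k * ι (E k i)), 0) := by
    intro k
    rw [map_smul, sm_vec, kl_val]
    apply Prod.ext
    · funext i
      simp [ext]
    · simp [ext]
  simp only [h1]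
  apply Prod.ext
  · funext i
    simp [Prod.fst_sum, Finset.sum_apply, vecMul, dotProduct]
  · simp [Prod.snd_sum]

/-- the map from the direct sum to the vectors -/
noncomputable def Phi {q : ℕ} (l : Fin q → Rel R G n) :
    (↥(LinearMap.range (E.map ι).toLinearMapRight') × (Fin q → S)) →ₗ[S] (MM R G n →₀ S) :=
  ((sec ι E).comp (Submodule.subtype _)).coprod (Fintype.linearCombination S fun i => vec ι (l i))

theorem mem_range_fix (hE : E * E = E) {p : Fin n → S}
    (hp : p ∈ LinearMap.range (E.map ι).toLinearMapRight') : p ᵥ* E.map ι = p := by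
  obtain ⟨u, rfl⟩ := hp
  rw [toLinearMapRight'_apply, vecMul_vecMul, ← Matrix.map_mul, hE]

theorem sm_Phi (hE : E * E = E) {q : ℕ} (l : Fin q → Rel R G n) (hl : ∀ i, (l i).val = 0)
    (x : ↥(LinearMap.range (E.map ι).toLinearMapRight') × (Fin q → S)) :
    sm ι n (Phi ι E l x) = ((x.1 : Fin n → S), 0) := by
  unfold Phi
  rw [LinearMap.coprod_apply, map_add, LinearMap.comp_apply, Submodule.subtype_apply, sm_sec,
    mem_range_fix ι E hE x.1.2, Fintype.linearCombination_apply, map_sum]
  have h1 : ∀ i, sm ι n (x.2 i • vec ι (l i)) = 0 := by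
    intro i
    rw [map_smul, sm_vec, hl, ext_zero, smul_zero]
  simp [h1]

theorem range_Phi (hE : E * E = E) {V : Set (MM R G n)} {q : ℕ} {l : Fin q → Rel R G n}
    (H : Good T V q l) (ht : ∀ k, tt (E k) ∈ V) :
    LinearMap.range (Phi ι E l) = Submodule.span S
      (Set.range fun i => vec ι (Sum.elim l (fun k => kl (E k)) i)) := by
  classical
  apply le_antisymm
  · rintro _ ⟨x, rfl⟩
    unfold Phi
    rw [LinearMap.coprod_apply, LinearMap.comp_apply, sec, LinearMap.neg_apply,
      Fintype.linearCombination_apply, Fintype.linearCombination_apply]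
    refine Submodule.add_mem _ (Submodule.neg_mem _ (Submodule.sum_mem _ fun i _ =>
      Submodule.smul_mem _ _ (Submodule.subset_span ⟨Sum.inr i, rfl⟩)))
      (Submodule.sum_mem _ fun i _ => Submodule.smul_mem _ _
        (Submodule.subset_span ⟨Sum.inl i, rfl⟩))
  · rw [Submodule.span_le]
    rintro _ ⟨i, rfl⟩
    have hl : ∀ i, vec ι (l i) ∈ LinearMap.range (Phi ι E l) := by
      intro i
      refine ⟨(0, Pi.single i 1), ?_⟩
      unfold Phi
      rw [LinearMap.coprod_apply]
      simp [Fintype.linearCombination_apply_single]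
    rcases i with i | i
    · exact hl i
    · show vec ι (kl (E i)) ∈ LinearMap.range (Phi ι E l)
      have hp : -(fun j => ι (E i j)) ∈ LinearMap.range (E.map ι).toLinearMapRight' := by
        refine Submodule.neg_mem _ ⟨Pi.single i 1, ?_⟩
        rw [toLinearMapRight'_apply]
        funext j
        simp
      let p : ↥(LinearMap.range (E.map ι).toLinearMapRight') := ⟨_, hp⟩
      have h1 : vec ι (kl (E i)) - Phi ι E l (p, 0) ∈
          Submodule.span S (Set.range fun i => vec ι (l i)) := by
        apply H.span S ι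
        · intro z hz
          have hz' := Finsupp.mem_support_iff.1 (Finset.mem_coe.1 hz)
          by_contra hzV
          have hk : ∀ k, vec ι (kl (E k)) z = 0 := by
            intro k
            have h2 : tt (E k) ≠ z := fun h => hzV (h ▸ ht k)
            have h3 : z1 R G n ≠ z := fun h => hzV (h ▸ H.hz1)
            have h4 : z2 R G n ≠ z := fun h => hzV (h ▸ H.hz2)
            simp [vec, kl, h2, h3, h4]
          apply hz'
          rw [Finsupp.sub_apply, hk, zero_sub, neg_eq_zero]
          unfold Phi sec
          rw [LinearMap.coprod_apply, map_zero, add_zero, LinearMap.comp_apply,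
            LinearMap.neg_apply, Fintype.linearCombination_apply, Finsupp.neg_apply,
            Finsupp.finsetSum_apply]
          simp [hk]
        · rw [map_sub, sm_Phi ι E hE l H.hval, sm_vec, kl_val]
          apply Prod.ext
          · funext j
            simp [ext, p]
          · simp [ext]
      have h2 : Submodule.span S (Set.range fun i => vec ι (l i)) ≤
          LinearMap.range (Phi ι E l) := by
        rw [Submodule.span_le]
        rintro _ ⟨i, rfl⟩
        exact hl i
      have h3 : vec ι (kl (E i)) = (vec ι (kl (E i)) - Phi ι E l (p, 0)) + Phi ι E l (p, 0) := by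
        abel
      rw [h3]
      exact Submodule.add_mem _ (h2 h1) ⟨_, rfl⟩

end

theorem th_vec (idx : MM R G n → k) (l : Rel R G n) :
    th idx (vec (io R G k) l) = MonoidAlgebra.single (yy G (idx l.x)) (1 : R) *
      (1 + MonoidAlgebra.single ((yy G (idx l.x))⁻¹ * inl l.g * yy G (idx l.y)) (1 : R) +
        MonoidAlgebra.single ((yy G (idx l.x))⁻¹ * inl l.h * yy G (idx l.w)) l.c) := by
  have hg : ∀ u g v : GF G k, u * (u⁻¹ * g * v) = g * v := by
    intro u g v
    group
  unfold vec
  rw [map_add, map_add, th_single, th_single, th_single, one_mul, mul_add, mul_add, mul_one,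
    io_sg, io_sg, MonoidAlgebra.single_mul_single, MonoidAlgebra.single_mul_single,
    MonoidAlgebra.single_mul_single, MonoidAlgebra.single_mul_single, hg, hg]
  simp

theorem cl_neg_row (ρ : Fin n → MonoidAlgebra R G) : cl ((-ρ, 0) : MM R G n) = 0 := by
  simp [cl]

/-- **Every finitely generated projective module is, up to a free direct summand, a left ideal
generated by trinomials.** -/
theorem main1 (hT : Subring.closure T = ⊤) (E : Matrix (Fin n) (Fin n) (MonoidAlgebra R G))
    (hE : E * E = E) :
    ∃ (m q r : ℕ) (c : Fin r → R), (∀ i, c i ∈ T ∨ c i = 1) ∧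
      ∀ (k : Type) (j : Fin m → k), Function.Injective j →
        ∃ a b : Fin r → GF G k, Nonempty (↥(triIdeal a b c) ≃ₗ[RR R G k]
          (↥(LinearMap.range (E.map (io R G k)).toLinearMapRight') × (Fin q → RR R G k))) := by
  classical
  obtain ⟨V, q, l, H, ht⟩ := exists_good (m := n) hT E
  obtain ⟨m, ⟨e⟩⟩ := @Finite.exists_equiv_fin V H.fin.to_subtype
  let lam : Fin q ⊕ Fin n → Rel R G n := Sum.elim l (fun k => kl (E k))
  let f := (finSumFinEquiv (m := q) (n := n)).symm
  refine ⟨m, q, q + n, fun i => (lam (f i)).c, ?_, fun k j hj => ?_⟩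
  · intro i
    show (lam (f i)).c ∈ T ∨ (lam (f i)).c = 1
    rcases f i with a | a
    · exact H.hc a
    · exact Or.inr rfl
  let v : k → MM R G n := Function.extend j (fun i => (e.symm i : MM R G n)) (fun _ => z1 R G n)
  have hv : ∀ i, v i ∈ V := by
    intro i
    by_cases h : ∃ a, j a = i
    · obtain ⟨a, rfl⟩ := h
      show Function.extend j _ _ (j a) ∈ V
      rw [hj.extend_apply]
      exact (e.symm a).2
    · show Function.extend j _ _ i ∈ V
      rw [Function.extend_apply' _ _ _ h]
      exact H.hz1
  let idx : MM R G n → k := fun x => if h : x ∈ V then j (e ⟨x, h⟩) else j (e ⟨z1 R G n, H.hz1⟩)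
  have hidx : ∀ x ∈ V, v (idx x) = x := by
    intro x hx
    have h1 : idx x = j (e ⟨x, hx⟩) := dif_pos hx
    rw [h1]
    show Function.extend j _ _ (j (e ⟨x, hx⟩)) = x
    rw [hj.extend_apply, Equiv.symm_apply_apply]
  have hadm : ∀ i, Adm (cl (v i)) := fun i => H.hadm _ (hv i)
  choose s t hst using hadm
  have hlx : ∀ i, v (idx (lam i).x) = (lam i).x := by
    rintro (i | i)
    · exact hidx _ (H.hx i)
    · exact hidx _ (ht i)
  have hly : ∀ i, v (idx (lam i).y) = (lam i).y := by
    rintro (i | i)
    · exact hidx _ (H.hy i)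
    · exact hidx _ H.hz1
  have hlw : ∀ i, v (idx (lam i).w) = (lam i).w := by
    rintro (i | i)
    · exact hidx _ (H.hw i)
    · exact hidx _ H.hz2
  have hl0 : ∀ i, cl (lam i).val = 0 := by
    rintro (i | i)
    · show cl (l i).val = 0
      rw [H.hval, cl_zero]
    · show cl (kl (E i)).val = 0
      rw [kl_val, cl_neg_row]
  have hrange := range_Phi (io R G k) E hE H ht
  let F : (↥(LinearMap.range (E.map (io R G k)).toLinearMapRight') × (Fin q → RR R G k))
      →ₗ[RR R G k] RR R G k := (th idx).comp (Phi (io R G k) E l)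
  have hF : Function.Injective F := by
    rw [← LinearMap.ker_eq_bot, LinearMap.ker_eq_bot']
    intro x hx
    have h1 : Phi (io R G k) E l x = 0 := by
      refine th_inj v (fun i => cl (v i)) s t hst idx (fun i => rfl) lam hlx hly hlw hl0 _ ?_ hx
      rw [← hrange]
      exact ⟨x, rfl⟩
    have h2 := sm_Phi (io R G k) E hE l H.hval x
    rw [h1, map_zero] at h2
    have h3 : x.1 = 0 := Subtype.ext (congrArg Prod.fst h2).symm
    have h4 : Fintype.linearCombination (RR R G k) (fun i => vec (io R G k) (l i)) x.2 = 0 := by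
      have h5 := h1
      unfold Phi at h5
      rw [LinearMap.coprod_apply, h3, map_zero, zero_add] at h5
      exact h5
    have h6 : x.2 = 0 := by
      have h7 := H.li (RR R G k) (io R G k)
      rw [Fintype.linearCombination_apply] at h4
      exact funext (Fintype.linearIndependent_iff.1 h7 x.2 h4)
    exact Prod.ext h3 h6
  let a : Fin (q + n) → GF G k := fun i =>
    (yy G (idx (lam (f i)).x))⁻¹ * inl (lam (f i)).g * yy G (idx (lam (f i)).y)
  let b : Fin (q + n) → GF G k := fun i =>
    (yy G (idx (lam (f i)).x))⁻¹ * inl (lam (f i)).h * yy G (idx (lam (f i)).w)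
  have hI : LinearMap.range F = triIdeal a b (fun i => (lam (f i)).c) := by
    have h1 : LinearMap.range F = Submodule.span (RR R G k)
        (Set.range fun i => th idx (vec (io R G k) (lam i))) := by
      show LinearMap.range ((th idx).comp (Phi (io R G k) E l)) = _
      rw [LinearMap.range_comp, hrange, Submodule.map_span, ← Set.range_comp]
      rfl
    rw [h1]
    apply le_antisymm
    · rw [Submodule.span_le]
      rintro _ ⟨i, rfl⟩
      show th idx (vec (io R G k) (lam i)) ∈ triIdeal a b (fun i => (lam (f i)).c)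
      rw [th_vec]
      refine Ideal.mul_mem_left _ _ (Ideal.subset_span ⟨f.symm i, ?_⟩)
      simp only [a, b, Equiv.apply_symm_apply]
    · unfold triIdeal
      refine Ideal.span_le.2 ?_
      rintro _ ⟨i, rfl⟩
      have h2 : th idx (vec (io R G k) (lam (f i))) ∈ Submodule.span (RR R G k)
        (Set.range fun i => th idx (vec (io R G k) (lam i))) := Submodule.subset_span ⟨f i, rfl⟩
      rw [th_vec] at h2
      have h3 := Submodule.smul_mem _
        (MonoidAlgebra.single (yy G (idx (lam (f i)).x))⁻¹ (1 : R)) h2
      rw [smul_eq_mul, ← mul_assoc, MonoidAlgebra.single_mul_single, inv_mul_cancel, mul_one,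
        show (MonoidAlgebra.single (1 : GF G k) (1 : R)) = 1 from rfl, one_mul] at h3
      exact h3
  exact ⟨a, b, ⟨((LinearEquiv.ofInjective F hF).trans (LinearEquiv.ofEq _ _ hI)).symm⟩⟩

end Pool.Agent.U674.TJ
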