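import Pool.Agent.U674.TJ.Can

/-!
# Trinomial left ideals and negative `K`-groups
-/

set_option autoImplicit false

namespace Pool.Agent.U674.TJ

open MonoidAlgebra Monoid.Coprod Matrix Pool.Agent.U181.TG Pool.Agent.Y75
open Pool.Agent.U674.TI (RowSp exists_idem rowSp_projective)

variable {R : Type} [Ring R]

/-- the ring of Laurent polynomials `R[t, t⁻¹]` -/
abbrev LR (R : Type) [Ring R] : Type := MonoidAlgebra R (Multiplicative ℤ)

/-- the power `t ^ e` with the coefficient `c` -/
noncomputable abbrev tp (e : ℤ) (c : R) : LR R := MonoidAlgebra.single (Multiplicative.ofAdd e) c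

/-- the elements of `T` together with `t` and `t⁻¹` -/
def Tt (T : Set R) : Set (LR R) := {x | (∃ c ∈ T, x = tp 0 c) ∨ x = tp 1 1 ∨ x = tp (-1) 1}

theorem closure_Tt {T : Set R} (hT : Subring.closure T = ⊤) : Subring.closure (Tt T) = ⊤ := by
  have h1 : ∀ r : R, tp 0 r ∈ Subring.closure (Tt T) := by
    have h2 : Subring.closure T ≤ (Subring.closure (Tt T)).comap
        (MonoidAlgebra.singleOneRingHom : R →+* LR R) := by
      rw [Subring.closure_le]
      intro c hc
      exact Subring.subset_closure (Or.inl ⟨c, hc, rfl⟩)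
    intro r
    exact h2 (show r ∈ Subring.closure T by rw [hT]; trivial)
  have hp : tp 1 1 ∈ Subring.closure (Tt T) :=
    Subring.subset_closure (Or.inr (Or.inl rfl))
  have hm : tp (-1) 1 ∈ Subring.closure (Tt T) :=
    Subring.subset_closure (Or.inr (Or.inr rfl))
  have h3 : ∀ k : ℕ, tp (k : ℤ) (1 : R) ∈ Subring.closure (Tt T) := by
    intro k
    induction k with
    | zero => exact one_mem _
    | succ k ih =>
      have h4 : tp ((k + 1 : ℕ) : ℤ) (1 : R) = tp (k : ℤ) 1 * tp 1 1 := by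
        rw [MonoidAlgebra.single_mul_single, mul_one, ← ofAdd_add]
        push_cast
        rfl
      rw [h4]
      exact mul_mem ih hp
  have h3' : ∀ k : ℕ, tp (-(k : ℤ)) (1 : R) ∈ Subring.closure (Tt T) := by
    intro k
    induction k with
    | zero => exact one_mem _
    | succ k ih =>
      have h4 : tp (-((k + 1 : ℕ) : ℤ)) (1 : R) = tp (-(k : ℤ)) 1 * tp (-1) 1 := by
        rw [MonoidAlgebra.single_mul_single, mul_one, ← ofAdd_add]
        push_cast
        rw [neg_add]
      rw [h4]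
      exact mul_mem ih hm
  have h5 : ∀ e : ℤ, tp e (1 : R) ∈ Subring.closure (Tt T) := by
    intro e
    rcases Int.eq_nat_or_neg e with ⟨k, rfl | rfl⟩
    · exact h3 k
    · exact h3' k
  rw [eq_top_iff]
  intro x _
  induction x using MonoidAlgebra.induction_linear with
  | zero => exact zero_mem _
  | add x y hx hy => exact add_mem (hx trivial) (hy trivial)
  | single m r =>
    have h6 : (MonoidAlgebra.single m r : LR R) = tp 0 r * tp m.toAdd 1 := by
      rw [MonoidAlgebra.single_mul_single, mul_one, ← ofAdd_add, zero_add]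
      rfl
    rw [h6]
    exact mul_mem (h1 r) (h5 _)

/-- the isomorphism of `R[t, t⁻¹][Γ]` and `R[ℤ × Γ]` -/
noncomputable def sw (R : Type) [Ring R] (Γ : Type) [Group Γ] :
    MonoidAlgebra (LR R) Γ →+* MonoidAlgebra R (Multiplicative ℤ × Γ) :=
  (MonoidAlgebra.mapDomainRingHom R (MulEquiv.prodComm : Γ × Multiplicative ℤ ≃* _).toMonoidHom).comp
    (MonoidAlgebra.curryRingEquiv (R := R) (M := Γ) (N := Multiplicative ℤ)).symm.toRingHom

/-- the inverse -/
noncomputable def sw' (R : Type) [Ring R] (Γ : Type) [Group Γ] :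
    MonoidAlgebra R (Multiplicative ℤ × Γ) →+* MonoidAlgebra (LR R) Γ :=
  (MonoidAlgebra.curryRingEquiv (R := R) (M := Γ) (N := Multiplicative ℤ)).toRingHom.comp
    (MonoidAlgebra.mapDomainRingHom R (MulEquiv.prodComm : Multiplicative ℤ × Γ ≃* _).toMonoidHom)

theorem sw_single (Γ : Type) [Group Γ] (g : Γ) (m : Multiplicative ℤ) (r : R) :
    sw R Γ (MonoidAlgebra.single g (MonoidAlgebra.single m r)) = MonoidAlgebra.single (m, g) r := by
  unfold sw
  rw [RingHom.comp_apply]
  have h1 := MonoidAlgebra.curryRingEquiv_symm_single (R := R) g m r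
  have h2 : (MonoidAlgebra.curryRingEquiv (R := R) (M := Γ) (N := Multiplicative ℤ)).symm.toRingHom
      (MonoidAlgebra.single g (MonoidAlgebra.single m r)) = MonoidAlgebra.single (g, m) r := h1
  rw [h2]
  simp

theorem sw'_single (Γ : Type) [Group Γ] (g : Γ) (m : Multiplicative ℤ) (r : R) :
    sw' R Γ (MonoidAlgebra.single (m, g) r) = MonoidAlgebra.single g (MonoidAlgebra.single m r) := by
  unfold sw'
  rw [RingHom.comp_apply]
  have h2 : MonoidAlgebra.mapDomainRingHom R
      (MulEquiv.prodComm : Multiplicative ℤ × Γ ≃* _).toMonoidHom (MonoidAlgebra.single (m, g) r) =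
      MonoidAlgebra.single (g, m) r := by
    simp
  rw [h2]
  exact MonoidAlgebra.curryRingEquiv_single (R := R) g m r

theorem sw_sw' (Γ : Type) [Group Γ] (x : MonoidAlgebra R (Multiplicative ℤ × Γ)) :
    sw R Γ (sw' R Γ x) = x := by
  induction x using MonoidAlgebra.induction_linear with
  | zero => rw [map_zero, map_zero]
  | add x y hx hy => rw [map_add, map_add, hx, hy]
  | single m r =>
    obtain ⟨m, g⟩ := m
    rw [sw'_single, sw_single]

theorem sw_nat {Γ Δ : Type} [Group Γ] [Group Δ] (f : Γ →* Δ) (x : MonoidAlgebra (LR R) Γ) :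
    gr R (ix (Multiplicative ℤ) f) (sw R Γ x) = sw R Δ (gr (LR R) f x) := by
  induction x using MonoidAlgebra.induction_linear with
  | zero => simp only [map_zero]
  | add x y hx hy => rw [map_add, map_add, map_add, map_add, hx, hy]
  | single g a =>
    induction a using MonoidAlgebra.induction_linear with
    | zero => simp only [MonoidAlgebra.single_zero, map_zero]
    | add x y hx hy =>
      rw [MonoidAlgebra.single_add, map_add, map_add, map_add, map_add, hx, hy]
    | single m r =>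
      rw [sw_single, gr_single, gr_single, sw_single]
      rfl

/-- the class in `K_{-1}(R[Γ])` of the module `P` over `R[t, t⁻¹][Γ] = R[Γ][t, t⁻¹]` (that is, of an
idempotent matrix with row space isomorphic to `P`) is zero -/
def NegZero (R : Type) [Ring R] (Γ : Type) [Group Γ] (P : Type) [AddCommGroup P]
    [Module (MonoidAlgebra (LR R) Γ) P] : Prop :=
  ∃ (n : ℕ) (E : Matrix (Fin n) (Fin n) (MonoidAlgebra (LR R) Γ)) (hE : E * E = E),
    Nonempty (P ≃ₗ[MonoidAlgebra (LR R) Γ] RowSp E) ∧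
      kap R Γ (NK.K0.map (sw R Γ) (NK.cls ⟨n, E, hE⟩)) = 0

/-- the classes in `K_{-1}(R[Γ])` of the projective left ideals of `R[t, t⁻¹][Γ]` generated by finitely many
elements `1 + a + c b`, with `a, b ∈ Γ` and `c` in `T` or equal to `1`, `t`, `t⁻¹`, are zero -/
def TrinoNeg (R : Type) [Ring R] (T : Set R) (Γ : Type) [Group Γ] : Prop :=
  ∀ (r : ℕ) (a b : Fin r → Γ) (c : Fin r → LR R), (∀ i, c i ∈ Tt T ∨ c i = 1) →
    Module.Projective (MonoidAlgebra (LR R) Γ) (triIdeal a b c) → NegZero R Γ (triIdeal a b c)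

theorem KN_of_trino {T : Set R} (hT : Subring.closure T = ⊤) {G : Type} [Group G]
    (h : TrinoNeg R T (GF G ℕ)) : Subsingleton (KN R 1 G) := by
  refine KN_one_of_classes R G fun n E₀ hE₀ => ?_
  let E : Matrix (Fin n) (Fin n) (MonoidAlgebra (LR R) G) := E₀.map (sw' R G)
  have hE : E * E = E := by
    show E₀.map (sw' R G) * E₀.map (sw' R G) = E₀.map (sw' R G)
    rw [← Matrix.map_mul, hE₀]
  obtain ⟨m, q, r, c, hc, hm⟩ := main1 (closure_Tt hT) E hE
  obtain ⟨a, b, ⟨f⟩⟩ := hm ℕ (fun i => (i : ℕ)) Fin.val_injective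
  have hE' : E.map (io (LR R) G ℕ) * E.map (io (LR R) G ℕ) = E.map (io (LR R) G ℕ) := by
    rw [← Matrix.map_mul, hE]
  have hpr : Module.Projective (RR (LR R) G ℕ) (triIdeal a b c) := by
    have := rowSp_projective (E.map (io (LR R) G ℕ)) hE'
    have h2 : Module.Projective (RR (LR R) G ℕ)
        (RowSp (E.map (io (LR R) G ℕ)) × (Fin q → RR (LR R) G ℕ)) := inferInstance
    exact Module.Projective.of_equiv f.symm
  obtain ⟨n', E', hE'', ⟨g⟩, hcls⟩ := h r a b c hc hpr
  have h1 := cls_sum_one (⟨n, E.map (io (LR R) G ℕ), hE'⟩ : NK.Idem (RR (LR R) G ℕ))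
    ⟨n', E', hE''⟩ q (g.symm.trans f)
  rw [h1, map_add, map_add] at hcls
  have h2 : NK.K0.map (sw R (GF G ℕ)) (NK.cls (oneI (MonoidAlgebra (LR R) (GF G ℕ)) q)) =
      NK.cls (oneI (MonoidAlgebra R (Multiplicative ℤ × GF G ℕ)) q) := by
    rw [NK.K0.map_cls, map_oneI]
  have h3 : kap R (GF G ℕ) (NK.K0.map (sw R (GF G ℕ))
      (NK.cls (oneI (MonoidAlgebra (LR R) (GF G ℕ)) q))) = 0 := by
    rw [h2, kap_oneI]
  rw [h3, add_zero] at hcls
  have h4 := kap_nat R (Monoid.Coprod.fst : GF G ℕ →* G) (NK.K0.map (sw R (GF G ℕ))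
    (NK.cls (⟨n, E.map (io (LR R) G ℕ), hE'⟩ : NK.Idem (RR (LR R) G ℕ))))
  rw [hcls, map_zero] at h4
  rw [← h4, NK.K0.map_cls, NK.K0.map_cls]
  congr 2
  unfold NK.Idem.map
  congr 1
  ext1 i j
  simp only [Matrix.map_apply]
  rw [sw_nat]
  have h5 : gr (LR R) (Monoid.Coprod.fst : GF G ℕ →* G) (io (LR R) G ℕ (E i j)) = E i j := by
    have h6 := map_map_gr (R := LR R) (inl : G →* GF G ℕ) (Monoid.Coprod.fst : GF G ℕ →* G) E
    have h7 : (Monoid.Coprod.fst : GF G ℕ →* G).comp inl = MonoidHom.id G := by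
      ext g
      simp
    rw [h7, map_id_gr] at h6
    exact congrFun (congrFun h6 i) j
  rw [h5]
  exact (sw_sw' G _).symm

theorem trino_of_KN {T : Set R} {G : Type} [Group G] (h : Subsingleton (KN R 1 G)) :
    TrinoNeg R T G := by
  intro r a b c _ hp
  have hf : Module.Finite (MonoidAlgebra (LR R) G) (triIdeal a b c) := by
    rw [Module.Finite.iff_fg]
    exact ⟨(Set.finite_range _).toFinset, by rw [Set.Finite.coe_toFinset]; rfl⟩
  obtain ⟨n, E, hE, he⟩ := exists_idem _ hf hp
  exact ⟨n, E, hE, he, Subsingleton.elim _ _⟩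

/-- the condition on the left ideals for all groups in the class -/
def NegC (C : ∀ (G : Type) [Group G], Prop) (R : Type) [Ring R] (T : Set R) : Prop :=
  ∀ (Γ : Type) [Group Γ], C Γ → TrinoNeg R T Γ

/-- the condition on the left ideals for the one group `Test C * F_ℕ` -/
def NegOne (C : ∀ (G : Type) [Group G], Prop) (R : Type) [Ring R] (T : Set R) : Prop :=
  TrinoNeg R T (GF (Test C) ℕ)

/-- all negative `K`-groups vanish for the group rings of the groups in the class -/
def NegAll (C : ∀ (G : Type) [Group G], Prop) (R : Type) [Ring R] : Prop :=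
  ∀ (Γ : Type) [Group Γ], C Γ → ∀ m : ℕ, 1 ≤ m → Subsingleton (KN R m Γ)

theorem neg_tfae {T : Set R} (hT : Subring.closure T = ⊤)
    {C : ∀ (G : Type) [Group G], Prop} (hC : ClosedF C) (hZ : C (Multiplicative ℤ)) :
    List.TFAE [NegAll C R, NegC C R T, NegOne C R T] := by
  tfae_have 1 → 2 := fun h Γ _ hΓ => trino_of_KN (h Γ hΓ 1 le_rfl)
  tfae_have 2 → 3 := fun h => h _ (hC.2 _ (class_test hC.1))
  tfae_have 3 → 1 := fun h Γ _ hΓ m hm => by
    have h1 : Subsingleton (KN R 1 (Test C)) := KN_of_trino hT h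
    exact KN_allC R hC.1 hZ (((KN_tfae R hC.1).out 2 0).1 h1) m hm Γ hΓ
  tfae_finish

end Pool.Agent.U674.TJ
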