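import Mathlib

/-!
# Trinomial presentations, general coefficients

Relations `x + g y + c h w` between elements of `(R[G])^n × R[G] × R[G]`, with `g, h ∈ G` and `c` in a set
which generates the ring `R`, or `c = 1`.
-/

set_option autoImplicit false

namespace Pool.Agent.U674.TJ

variable {R : Type} [Ring R] {G : Type} [Group G] {n : ℕ} {T : Set R}

/-- the free module of rank `n + 2` -/
abbrev MM (R : Type) [Ring R] (G : Type) [Group G] (n : ℕ) : Type :=
  (Fin n → MonoidAlgebra R G) × (MonoidAlgebra R G × MonoidAlgebra R G)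

/-- monomials -/
noncomputable abbrev sg (g : G) (c : R) : MonoidAlgebra R G := MonoidAlgebra.single g c

/-- the augmentation -/
noncomputable def ag (R : Type) [Ring R] (G : Type) [Group G] : MonoidAlgebra R G →+* R :=
  MonoidAlgebra.liftNCRingHom (RingHom.id R) (1 : G →* R) (fun _ _ => Commute.one_right _)

@[simp] theorem ag_sg (g : G) (c : R) : ag R G (MonoidAlgebra.single g c) = c := by
  simp [ag]

/-- the class of a vector -/
noncomputable def cl (x : MM R G n) : R × R := (ag R G x.2.1, ag R G x.2.2)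

theorem cl_add (x y : MM R G n) : cl (x + y) = cl x + cl y := by
  simp [cl]

theorem cl_neg (x : MM R G n) : cl (-x) = -cl x := by
  simp [cl]

theorem cl_sub (x y : MM R G n) : cl (x - y) = cl x - cl y := by
  simp [cl]

theorem cl_smul (g : G) (c : R) (x : MM R G n) : cl (sg g c • x) = c • cl x := by
  simp [cl, sg]

theorem cl_zero : cl (0 : MM R G n) = 0 := by
  simp [cl]

/-- admissible classes: some linear functional has the value one -/
def Adm (w : R × R) : Prop := ∃ s t : R, w.1 * s + w.2 * t = 1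

/-- a relation `x + g y + c h w` -/
structure Rel (R : Type) [Ring R] (G : Type) [Group G] (n : ℕ) where
  x : MM R G n
  y : MM R G n
  w : MM R G n
  g : G
  h : G
  c : R

/-- the value of the relation -/
noncomputable def Rel.val (l : Rel R G n) : MM R G n :=
  l.x + sg l.g (1 : R) • l.y + sg l.h l.c • l.w

section ext

variable {S : Type} [Ring S] (ι : MonoidAlgebra R G →+* S)

/-- change of rings on vectors -/
noncomputable def ext (x : MM R G n) : (Fin n → S) × (S × S) :=
  (fun i => ι (x.1 i), (ι x.2.1, ι x.2.2))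

theorem ext_add (x y : MM R G n) : ext ι (x + y) = ext ι x + ext ι y := by
  ext i <;> simp [ext]

theorem ext_neg (x : MM R G n) : ext ι (-x) = -ext ι x := by
  ext i <;> simp [ext]

theorem ext_zero : ext ι (0 : MM R G n) = 0 := by
  ext i <;> simp [ext]

theorem ext_smul (a : MonoidAlgebra R G) (x : MM R G n) : ext ι (a • x) = ι a • ext ι x := by
  ext i <;> simp [ext]

/-- the relation as a vector -/
noncomputable def vec (l : Rel R G n) : MM R G n →₀ S :=
  Finsupp.single l.x 1 + Finsupp.single l.y (ι (sg l.g (1 : R))) + Finsupp.single l.w (ι (sg l.h l.c))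

/-- the evaluation of vectors -/
noncomputable def sm (n : ℕ) : (MM R G n →₀ S) →ₗ[S] (Fin n → S) × (S × S) :=
  Finsupp.linearCombination S (ext ι)

theorem sm_single (x : MM R G n) (a : S) : sm ι n (Finsupp.single x a) = a • ext ι x := by
  simp [sm, Finsupp.linearCombination_single]

theorem sm_vec (l : Rel R G n) : sm ι n (vec ι l) = ext ι l.val := by
  unfold vec Rel.val
  rw [map_add, map_add, sm_single, sm_single, sm_single, ext_add, ext_add, ext_smul, ext_smul,
    one_smul]

theorem support_vec {V : Set (MM R G n)} (l : Rel R G n) (hx : l.x ∈ V) (hy : l.y ∈ V)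
    (hw : l.w ∈ V) (z : MM R G n) (hz : z ∉ V) : vec ι l z = 0 := by
  classical
  have h1 : l.x ≠ z := fun h => hz (h ▸ hx)
  have h2 : l.y ≠ z := fun h => hz (h ▸ hy)
  have h3 : l.w ≠ z := fun h => hz (h ▸ hw)
  simp [vec, h1, h2, h3]

end ext

/-- the two last unit vectors -/
noncomputable def z1 (R : Type) [Ring R] (G : Type) [Group G] (n : ℕ) : MM R G n := (0, (1, 0))

/-- the two last unit vectors -/
noncomputable def z2 (R : Type) [Ring R] (G : Type) [Group G] (n : ℕ) : MM R G n := (0, (0, 1))

/-- the other basis vectors, shifted by the last one -/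
noncomputable def ee (R : Type) [Ring R] (G : Type) [Group G] (j : Fin n) : MM R G n :=
  (Pi.single j 1, (0, 1))

/-- a good system of vectors and relations -/
structure Good (T : Set R) (V : Set (MM R G n)) (q : ℕ) (l : Fin q → Rel R G n) : Prop where
  fin : V.Finite
  hz1 : z1 R G n ∈ V
  hz2 : z2 R G n ∈ V
  he : ∀ j, ee R G j ∈ V
  hadm : ∀ x ∈ V, Adm (cl x)
  hx : ∀ i, (l i).x ∈ V
  hy : ∀ i, (l i).y ∈ V
  hw : ∀ i, (l i).w ∈ V
  hc : ∀ i, (l i).c ∈ T ∨ (l i).c = 1
  hval : ∀ i, (l i).val = 0
  li : ∀ (S : Type) [Ring S] (ι : MonoidAlgebra R G →+* S),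
    LinearIndependent S fun i => vec ι (l i)
  span : ∀ (S : Type) [Ring S] (ι : MonoidAlgebra R G →+* S) (c : MM R G n →₀ S),
    (c.support : Set (MM R G n)) ⊆ V → sm ι n c = 0 →
      c ∈ Submodule.span S (Set.range fun i => vec ι (l i))

/-- adding a new element -/
theorem Good.extend {V : Set (MM R G n)} {q : ℕ} {l : Fin q → Rel R G n} (H : Good T V q l)
    {x y : MM R G n} (hx : x ∈ V) (hy : y ∈ V) (g h : G) (c : R) (hc : c ∈ T ∨ c = 1)
    (hadm : Adm (cl (-(sg g (1 : R) • x + sg h c • y))))
    (ht : -(sg g (1 : R) • x + sg h c • y) ∉ V) :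
    Good T (insert (-(sg g (1 : R) • x + sg h c • y)) V) (q + 1)
      (Fin.cons ⟨-(sg g (1 : R) • x + sg h c • y), x, y, g, h, c⟩ l) := by
  classical
  set t := -(sg g (1 : R) • x + sg h c • y) with hte
  have hxt : x ≠ t := fun h => ht (h ▸ hx)
  have hyt : y ≠ t := fun h => ht (h ▸ hy)
  have hval0 : (⟨t, x, y, g, h, c⟩ : Rel R G n).val = 0 := by
    simp only [Rel.val, hte]
    abel
  have hcoef : ∀ (S : Type) [Ring S] (ι : MonoidAlgebra R G →+* S),
      vec ι (⟨t, x, y, g, h, c⟩ : Rel R G n) t = 1 := by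
    intro S _ ι
    simp [vec, hxt, hyt]
  have hsup : ∀ (S : Type) [Ring S] (ι : MonoidAlgebra R G →+* S),
      ∀ a ∈ Submodule.span S (Set.range fun i => vec ι (l i)), a t = 0 := by
    intro S _ ι a ha
    induction ha using Submodule.span_induction with
    | mem a ha =>
      obtain ⟨i, rfl⟩ := ha
      exact support_vec ι (l i) (H.hx i) (H.hy i) (H.hw i) t ht
    | zero => rfl
    | add a b _ _ ha hb => rw [Finsupp.add_apply, ha, hb, add_zero]
    | smul r a _ ha => rw [Finsupp.smul_apply, ha, smul_zero]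
  have hrange : ∀ (S : Type) [Ring S] (ι : MonoidAlgebra R G →+* S),
      (fun i => vec ι ((Fin.cons (⟨t, x, y, g, h, c⟩ : Rel R G n) l : Fin (q + 1) → Rel R G n) i)) =
        Fin.cons (vec ι (⟨t, x, y, g, h, c⟩ : Rel R G n)) (fun i => vec ι (l i)) := by
    intro S _ ι
    funext i
    refine Fin.cases ?_ (fun j => ?_) i <;> simp
  refine ⟨H.fin.insert _, Set.mem_insert_of_mem _ H.hz1, Set.mem_insert_of_mem _ H.hz2,
    fun j => Set.mem_insert_of_mem _ (H.he j), ?_, ?_, ?_, ?_, ?_, ?_, ?_, ?_⟩
  · intro z hz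
    rcases Set.mem_insert_iff.1 hz with rfl | hz
    · exact hadm
    · exact H.hadm z hz
  · intro i
    refine Fin.cases ?_ (fun j => ?_) i
    · exact Set.mem_insert _ _
    · exact Set.mem_insert_of_mem _ (H.hx j)
  · intro i
    refine Fin.cases ?_ (fun j => ?_) i
    · exact Set.mem_insert_of_mem _ hx
    · exact Set.mem_insert_of_mem _ (H.hy j)
  · intro i
    refine Fin.cases ?_ (fun j => ?_) i
    · exact Set.mem_insert_of_mem _ hy
    · exact Set.mem_insert_of_mem _ (H.hw j)
  · intro i
    refine Fin.cases ?_ (fun j => ?_) i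
    · exact hc
    · exact H.hc j
  · intro i
    refine Fin.cases ?_ (fun j => ?_) i
    · exact hval0
    · exact H.hval j
  · intro S _ ι
    rw [hrange]
    refine LinearIndependent.finCons' _ _ (H.li S ι) ?_
    intro c y' hy' h0
    have h1 := congrArg (fun f : MM R G n →₀ S => f t) h0
    simp only [Finsupp.add_apply, Finsupp.smul_apply, hcoef, hsup S ι y' hy', smul_eq_mul, mul_one,
      add_zero, Finsupp.zero_apply] at h1
    exact h1
  · intro S _ ι a ha h0
    rw [hrange]
    have h1 : a - a t • vec ι (⟨t, x, y, g, h, c⟩ : Rel R G n) ∈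
        Submodule.span S (Set.range fun i => vec ι (l i)) := by
      apply H.span S ι
      · intro z hz
        have hz' := Finsupp.mem_support_iff.1 (Finset.mem_coe.1 hz)
        by_contra hzV
        have hzx : x ≠ z := fun h => hzV (h ▸ hx)
        have hzy : y ≠ z := fun h => hzV (h ▸ hy)
        by_cases hzt : z = t
        · subst hzt
          apply hz'
          rw [Finsupp.sub_apply, Finsupp.smul_apply, hcoef]
          simp
        · apply hz'
          have h2 : a z = 0 := by
            by_contra h2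
            rcases Set.mem_insert_iff.1 (ha (Finset.mem_coe.2 (Finsupp.mem_support_iff.2 h2)))
              with h3 | h3
            · exact hzt h3
            · exact hzV h3
          rw [Finsupp.sub_apply, Finsupp.smul_apply, h2]
          have h3 : vec ι (⟨t, x, y, g, h, c⟩ : Rel R G n) z = 0 := by
            simp [vec, hzx, hzy, Ne.symm hzt]
          rw [h3, smul_zero, sub_zero]
      · rw [map_sub, map_smul, sm_vec, h0, hval0, ext_zero, smul_zero, sub_zero]
    have h2 : Submodule.span S (Set.range fun i => vec ι (l i)) ≤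
        Submodule.span S (Set.range (Fin.cons (vec ι (⟨t, x, y, g, h, c⟩ : Rel R G n))
          (fun i => vec ι (l i)) : Fin (q + 1) → (MM R G n →₀ S))) := by
      apply Submodule.span_mono
      rintro _ ⟨i, rfl⟩
      exact ⟨i.succ, by simp⟩
    have h3 : a = (a - a t • vec ι (⟨t, x, y, g, h, c⟩ : Rel R G n)) +
        a t • vec ι (⟨t, x, y, g, h, c⟩ : Rel R G n) := by abel
    rw [h3]
    refine Submodule.add_mem _ (h2 h1) (Submodule.smul_mem _ _ (Submodule.subset_span ⟨0, ?_⟩))
    simp

/-- `x` can be added to every good system -/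
def Rch (T : Set R) (x : MM R G n) : Prop :=
  ∀ (V : Set (MM R G n)) (q : ℕ) (l : Fin q → Rel R G n), Good T V q l →
    ∃ (V' : Set (MM R G n)) (q' : ℕ) (l' : Fin q' → Rel R G n),
      V ⊆ V' ∧ Good T V' q' l' ∧ x ∈ V'

theorem rch_op {x y : MM R G n} (hx : Rch T x) (hy : Rch T y) (g h : G) (c : R)
    (hc : c ∈ T ∨ c = 1) (hadm : Adm (cl (-(sg g (1 : R) • x + sg h c • y)))) :
    Rch T (-(sg g (1 : R) • x + sg h c • y)) := by
  intro V q l H
  obtain ⟨V1, q1, l1, h1, H1, hx1⟩ := hx V q l H
  obtain ⟨V2, q2, l2, h2, H2, hy2⟩ := hy V1 q1 l1 H1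
  by_cases ht : -(sg g (1 : R) • x + sg h c • y) ∈ V2
  · exact ⟨V2, q2, l2, h1.trans h2, H2, ht⟩
  · exact ⟨_, _, _, (h1.trans h2).trans (Set.subset_insert _ _),
      H2.extend (h2 hx1) hy2 g h c hc hadm ht, Set.mem_insert _ _⟩

/-- reachable of the first class -/
def PA (T : Set R) (x : MM R G n) : Prop := Rch T x ∧ cl x = (1, 0)

/-- reachable of the second class -/
def PB (T : Set R) (x : MM R G n) : Prop := Rch T x ∧ cl x = (0, 1)

theorem pa_z1 : PA T (z1 R G n) :=
  ⟨fun V q l h => ⟨V, q, l, subset_rfl, h, h.hz1⟩, by simp [cl, z1]⟩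

theorem pb_z2 : PB T (z2 R G n) :=
  ⟨fun V q l h => ⟨V, q, l, subset_rfl, h, h.hz2⟩, by simp [cl, z2]⟩

theorem pb_e (j : Fin n) : PB T (ee R G j : MM R G n) :=
  ⟨fun V q l h => ⟨V, q, l, subset_rfl, h, h.he j⟩, by simp [cl, ee]⟩

theorem one_smul' (x : MM R G n) : sg (1 : G) (1 : R) • x = x := by
  have : sg (1 : G) (1 : R) = 1 := rfl
  rw [this, one_smul]

theorem stepA {x y y' : MM R G n} (hx : PA T x) (hy : PB T y) (hy' : PB T y') (h h' : G) (c : R)
    (hc : c ∈ T ∨ c = 1) : PA T (x + sg h c • y - sg h' c • y') := by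
  have h1 : Rch T (-(sg (1 : G) (1 : R) • x + sg h c • y)) := by
    refine rch_op hx.1 hy.1 1 h c hc ⟨-1, 0, ?_⟩
    rw [cl_neg, cl_add, cl_smul, cl_smul, hx.2, hy.2]
    simp
  have h2 : Rch T (-(sg (1 : G) (1 : R) • -(sg (1 : G) (1 : R) • x + sg h c • y) +
      sg h' c • y')) := by
    refine rch_op h1 hy'.1 1 h' c hc ⟨1, 0, ?_⟩
    rw [cl_neg, cl_add, cl_smul, cl_smul, cl_neg, cl_add, cl_smul, cl_smul, hx.2, hy.2, hy'.2]
    simp
  have h3 : -(sg (1 : G) (1 : R) • -(sg (1 : G) (1 : R) • x + sg h c • y) + sg h' c • y') =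
      x + sg h c • y - sg h' c • y' := by
    rw [one_smul', one_smul']
    abel
  rw [h3] at h2
  refine ⟨h2, ?_⟩
  rw [cl_sub, cl_add, cl_smul, cl_smul, hx.2, hy.2, hy'.2]
  simp

theorem stepB {x x' y : MM R G n} (hy : PB T y) (hx : PA T x) (hx' : PA T x') (h h' : G) (c : R)
    (hc : c ∈ T ∨ c = 1) : PB T (y + sg h c • x - sg h' c • x') := by
  have h1 : Rch T (-(sg (1 : G) (1 : R) • y + sg h c • x)) := by
    refine rch_op hy.1 hx.1 1 h c hc ⟨0, -1, ?_⟩
    rw [cl_neg, cl_add, cl_smul, cl_smul, hx.2, hy.2]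
    simp
  have h2 : Rch T (-(sg (1 : G) (1 : R) • -(sg (1 : G) (1 : R) • y + sg h c • x) +
      sg h' c • x')) := by
    refine rch_op h1 hx'.1 1 h' c hc ⟨0, 1, ?_⟩
    rw [cl_neg, cl_add, cl_smul, cl_smul, cl_neg, cl_add, cl_smul, cl_smul, hx.2, hy.2, hx'.2]
    simp
  have h3 : -(sg (1 : G) (1 : R) • -(sg (1 : G) (1 : R) • y + sg h c • x) + sg h' c • x') =
      y + sg h c • x - sg h' c • x' := by
    rw [one_smul', one_smul']
    abel
  rw [h3] at h2
  refine ⟨h2, ?_⟩
  rw [cl_sub, cl_add, cl_smul, cl_smul, hx.2, hy.2, hx'.2]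
  simp

/-- the differences for the first class -/
def DA (T : Set R) : AddSubgroup (MM R G n) where
  carrier := {d | ∀ x, PA T x → PA T (x + d) ∧ PA T (x - d)}
  zero_mem' := by
    intro x hx
    rw [add_zero, sub_zero]
    exact ⟨hx, hx⟩
  add_mem' := by
    intro a b ha hb x hx
    rw [← add_assoc, ← sub_sub]
    exact ⟨(hb _ (ha _ hx).1).1, (hb _ (ha _ hx).2).2⟩
  neg_mem' := by
    intro a ha x hx
    rw [← sub_eq_add_neg, sub_neg_eq_add]
    exact ⟨(ha x hx).2, (ha x hx).1⟩

/-- the differences for the second class -/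
def DB (T : Set R) : AddSubgroup (MM R G n) where
  carrier := {d | ∀ x, PB T x → PB T (x + d) ∧ PB T (x - d)}
  zero_mem' := by
    intro x hx
    rw [add_zero, sub_zero]
    exact ⟨hx, hx⟩
  add_mem' := by
    intro a b ha hb x hx
    rw [← add_assoc, ← sub_sub]
    exact ⟨(hb _ (ha _ hx).1).1, (hb _ (ha _ hx).2).2⟩
  neg_mem' := by
    intro a ha x hx
    rw [← sub_eq_add_neg, sub_neg_eq_add]
    exact ⟨(ha x hx).2, (ha x hx).1⟩

theorem memA {y y' : MM R G n} (hy : PB T y) (hy' : PB T y') (h : G) (c : R)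
    (hc : c ∈ T ∨ c = 1) : sg h c • y - sg h c • y' ∈ DA (n := n) T := by
  intro x hx
  have h1 := stepA hx hy hy' h h c hc
  have h2 := stepA hx hy' hy h h c hc
  rw [add_sub_assoc] at h1
  have h3 : x + sg h c • y' - sg h c • y = x - (sg h c • y - sg h c • y') := by abel
  rw [h3] at h2
  exact ⟨h1, h2⟩

theorem memB {x x' : MM R G n} (hx : PA T x) (hx' : PA T x') (h : G) (c : R)
    (hc : c ∈ T ∨ c = 1) : sg h c • x - sg h c • x' ∈ DB (n := n) T := by
  intro y hy
  have h1 := stepB hy hx hx' h h c hc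
  have h2 := stepB hy hx' hx h h c hc
  rw [add_sub_assoc] at h1
  have h3 : y + sg h c • x' - sg h c • x = y - (sg h c • x - sg h c • x') := by abel
  rw [h3] at h2
  exact ⟨h1, h2⟩

/-- the element `r h e_j` -/
noncomputable def mo (j : Fin n) (h : G) (r : R) : MM R G n :=
  (Pi.single j (sg h r), (0, 0))

theorem mo_add (j : Fin n) (h : G) (r s : R) : (mo j h (r + s) : MM R G n) = mo j h r + mo j h s := by
  unfold mo sg
  rw [MonoidAlgebra.single_add, Pi.single_add]
  simp

theorem mo_neg (j : Fin n) (h : G) (r : R) : (mo j h (-r) : MM R G n) = -mo j h r := by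
  unfold mo sg
  rw [MonoidAlgebra.single_neg, Pi.single_neg]
  simp

theorem mo_zero (j : Fin n) (h : G) : (mo j h 0 : MM R G n) = 0 := by
  unfold mo sg
  rw [MonoidAlgebra.single_zero, Pi.single_zero]
  rfl

/-- the coefficients which are reached -/
def Qr (T : Set R) (G : Type) [Group G] (n : ℕ) (r : R) : Prop :=
  ∀ (j : Fin n) (h : G), (mo j h r : MM R G n) ∈ DA (n := n) T ∧ (mo j h r : MM R G n) ∈ DB (n := n) T

theorem smul_mo (j : Fin n) (h : G) (c r : R) :
    sg (1 : G) c • (mo j h r : MM R G n) = mo j h (c * r) := by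
  unfold mo sg
  apply Prod.ext
  · funext i
    by_cases hij : i = j
    · subst hij
      simp
    · simp [Pi.single_eq_of_ne hij]
  · simp

theorem Qr_one : Qr T G n 1 := by
  intro j h
  have hA : ∀ (h : G), (mo j h 1 : MM R G n) ∈ DA (n := n) T := by
    intro h
    have h1 := memA (T := T) (pb_e (G := G) j) pb_z2 h 1 (Or.inr rfl)
    have h2 : sg h (1 : R) • (ee R G j : MM R G n) - sg h (1 : R) • z2 R G n = mo j h 1 := by
      unfold mo ee z2 sg
      apply Prod.ext
      · funext i
        by_cases hij : i = j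
        · subst hij
          simp
        · simp [Pi.single_eq_of_ne hij]
      · simp
        rfl
    rwa [h2] at h1
  refine ⟨hA h, ?_⟩
  have h1 := memB (T := T) (n := n) (hA 1 _ pa_z1).1 pa_z1 h 1 (Or.inr rfl)
  have h2 : sg h (1 : R) • (z1 R G n + mo j 1 1) - sg h (1 : R) • z1 R G n = mo j h 1 := by
    rw [smul_add, add_sub_cancel_left]
    unfold mo sg
    apply Prod.ext
    · funext i
      by_cases hij : i = j
      · subst hij
        simp
      · simp [Pi.single_eq_of_ne hij]
    · simp
  rwa [h2] at h1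

theorem Qr_mul {c r : R} (hc : c ∈ T) (hr : Qr T G n r) : Qr T G n (c * r) := by
  intro j h
  obtain ⟨h1, h2⟩ := hr j h
  constructor
  · have h3 := memA (T := T) (h2 _ pb_z2).1 pb_z2 1 c (Or.inl hc)
    rwa [smul_add, add_sub_cancel_left, smul_mo] at h3
  · have h3 := memB (T := T) (h1 _ pa_z1).1 pa_z1 1 c (Or.inl hc)
    rwa [smul_add, add_sub_cancel_left, smul_mo] at h3

theorem Qr_all (hT : Subring.closure T = ⊤) (r : R) : Qr T G n r := by
  have key : ∀ r ∈ Subring.closure T, ∀ q, Qr T G n q → Qr T G n (r * q) := by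
    intro r hr
    induction hr using Subring.closure_induction with
    | mem c hc => exact fun q hq => Qr_mul hc hq
    | zero =>
      intro q _ j h
      rw [zero_mul, mo_zero]
      exact ⟨zero_mem _, zero_mem _⟩
    | one => intro q hq; rwa [one_mul]
    | add a b _ _ ha hb =>
      intro q hq j h
      rw [add_mul, mo_add]
      exact ⟨add_mem (ha q hq j h).1 (hb q hq j h).1, add_mem (ha q hq j h).2 (hb q hq j h).2⟩
    | neg a _ ha =>
      intro q hq j h
      rw [neg_mul, mo_neg]
      exact ⟨neg_mem (ha q hq j h).1, neg_mem (ha q hq j h).2⟩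
    | mul a b _ _ ha hb =>
      intro q hq
      rw [mul_assoc]
      exact ha _ (hb q hq)
  have h1 := key r (by rw [hT]; trivial) 1 Qr_one
  rwa [mul_one] at h1

theorem left_mem (hT : Subring.closure T = ⊤) (v : Fin n → MonoidAlgebra R G) :
    ((v, (0, 0)) : MM R G n) ∈ DB (n := n) T := by
  classical
  have h1 : ∀ (j : Fin n) (a : MonoidAlgebra R G),
      ((Pi.single j a, (0, 0)) : MM R G n) ∈ DB (n := n) T := by
    intro j a
    induction a using MonoidAlgebra.induction_linear with
    | zero =>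
      rw [Pi.single_zero]
      exact zero_mem _
    | add x y hx hy =>
      have : ((Pi.single j (x + y), (0, 0)) : MM R G n) =
          (Pi.single j x, (0, 0)) + (Pi.single j y, (0, 0)) := by
        rw [Pi.single_add]
        simp
      rw [this]
      exact add_mem hx hy
    | single h r => exact (Qr_all hT r j h).2
  have h2 : ((v, (0, 0)) : MM R G n) = ∑ j, ((Pi.single j (v j), (0, 0)) : MM R G n) := by
    apply Prod.ext
    · rw [Prod.fst_sum]
      exact (Finset.univ_sum_single v).symm
    · rw [Prod.snd_sum]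
      simp
  rw [h2]
  exact sum_mem fun j _ => h1 j _

/-- the elements which are used -/
noncomputable def tt (ρ : Fin n → MonoidAlgebra R G) : MM R G n := (-ρ, (-1, -1))

theorem rch_tt (hT : Subring.closure T = ⊤) (ρ : Fin n → MonoidAlgebra R G) : Rch T (tt ρ) := by
  have h1 := (left_mem hT ρ _ pb_z2).1
  have h3 : -(sg (1 : G) (1 : R) • z1 R G n + sg (1 : G) (1 : R) •
      (z2 R G n + ((ρ, (0, 0)) : MM R G n))) = tt ρ := by
    rw [one_smul', one_smul']
    apply Prod.ext
    · simp [z1, z2, tt]
    · simp [z1, z2, tt]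
  rw [← h3]
  refine rch_op pa_z1.1 h1.1 1 1 1 (Or.inr rfl) ⟨-1, 0, ?_⟩
  rw [cl_neg, cl_add, cl_smul, cl_smul, h1.2, (pa_z1 (T := T)).2]
  simp

/-- the initial system -/
theorem good_base : Good T ({z1 R G n, z2 R G n} ∪ Set.range (ee R G : Fin n → MM R G n)) 0
    Fin.elim0 := by
  classical
  refine ⟨(Set.toFinite _).union (Set.finite_range _), Or.inl (Or.inl rfl),
    Or.inl (Or.inr rfl), fun j => Or.inr ⟨j, rfl⟩,
    ?_, fun i => i.elim0, fun i => i.elim0, fun i => i.elim0, fun i => i.elim0, fun i => i.elim0,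
    ?_, ?_⟩
  · rintro x ((rfl | rfl) | ⟨j, rfl⟩)
    · exact ⟨1, 0, by simp [cl, z1]⟩
    · exact ⟨0, 1, by simp [cl, z2]⟩
    · exact ⟨0, 1, by simp [cl, ee]⟩
  · intro S _ ι
    exact linearIndependent_empty_type
  · intro S _ ι c hc h0
    rcases subsingleton_or_nontrivial S with hS | hS
    · have : c = 0 := Subsingleton.elim _ _
      rw [this]
      exact zero_mem _
    have hone : (1 : MonoidAlgebra R G) ≠ 0 := by
      intro h
      have h1 : ι 1 = ι 0 := by rw [h]
      rw [map_one, map_zero] at h1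
      exact one_ne_zero h1
    have hinj : Function.Injective (ee R G : Fin n → MM R G n) := by
      intro i j hij
      have h1 := congrArg (fun x : MM R G n => x.1 i) hij
      simp only [ee, Pi.single_eq_same] at h1
      by_contra hne
      rw [Pi.single_eq_of_ne hne] at h1
      exact hone h1
    have hez1 : ∀ j : Fin n, (ee R G j : MM R G n) ≠ z1 R G n := by
      intro j h
      have h1 := congrArg (fun x : MM R G n => x.1 j) h
      simp only [ee, z1, Pi.single_eq_same] at h1
      exact hone h1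
    have hez2 : ∀ j : Fin n, (ee R G j : MM R G n) ≠ z2 R G n := by
      intro j h
      have h1 := congrArg (fun x : MM R G n => x.1 j) h
      simp only [ee, z2, Pi.single_eq_same] at h1
      exact hone h1
    have hz12 : z1 R G n ≠ z2 R G n := by
      intro h
      have h1 := congrArg (fun x : MM R G n => x.2.1) h
      exact hone h1
    have hsub : c.support ⊆ insert (z1 R G n) (insert (z2 R G n)
        (Finset.univ.image (ee R G : Fin n → MM R G n))) := by
      intro x hx
      rcases hc (Finset.mem_coe.2 hx) with (h | h) | ⟨j, h⟩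
      · rw [h]
        exact Finset.mem_insert_self _ _
      · rw [h]
        exact Finset.mem_insert_of_mem (Finset.mem_insert_self _ _)
      · rw [← h]
        exact Finset.mem_insert_of_mem (Finset.mem_insert_of_mem
          (Finset.mem_image_of_mem _ (Finset.mem_univ _)))
    have h1 : sm ι n c = c (z1 R G n) • ext ι (z1 R G n) + (c (z2 R G n) • ext ι (z2 R G n) +
        ∑ j, c (ee R G j) • ext ι (ee R G j)) := by
      unfold sm
      rw [Finsupp.linearCombination_apply, Finsupp.sum_of_support_subset c hsub _ (by simp),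
        Finset.sum_insert, Finset.sum_insert, Finset.sum_image (fun a _ b _ h => hinj h)]
      · intro h
        obtain ⟨j, _, hj⟩ := Finset.mem_image.1 h
        exact hez2 j hj
      · intro h
        rcases Finset.mem_insert.1 h with h | h
        · exact hz12 h
        · obtain ⟨j, _, hj⟩ := Finset.mem_image.1 h
          exact hez1 j hj
    rw [h0] at h1
    have h2 : ∀ j, c (ee R G j) = 0 := by
      intro j
      have h3 := congrArg (fun x : (Fin n → S) × (S × S) => x.1 j) h1
      have h4 : ∀ i : Fin n, (c (ee R G i) • ext ι (ee R G i)).1 j =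
          if i = j then c (ee R G i) else 0 := by
        intro i
        by_cases hij : i = j
        · subst hij
          simp [ext, ee]
        · simp [ext, ee, hij]
      have h5 : (c (z1 R G n) • ext ι (z1 R G n)).1 j = 0 := by
        simp [ext, z1]
      have h6 : (c (z2 R G n) • ext ι (z2 R G n)).1 j = 0 := by
        simp [ext, z2]
      simp only [Prod.fst_add, Pi.add_apply, Prod.fst_sum, Finset.sum_apply, h4, h5, h6,
        Prod.fst_zero, Pi.zero_apply, zero_add, Finset.sum_ite_eq', Finset.mem_univ, if_true] at h3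
      exact h3.symm
    simp only [h2, zero_smul, Finset.sum_const_zero, add_zero] at h1
    have h4 : c (z1 R G n) = 0 := by
      have h3 := congrArg (fun x : (Fin n → S) × (S × S) => x.2.1) h1
      simpa [ext, z1, z2] using h3.symm
    have h5 : c (z2 R G n) = 0 := by
      have h3 := congrArg (fun x : (Fin n → S) × (S × S) => x.2.2) h1
      simpa [ext, z1, z2] using h3.symm
    have h6 : c = 0 := by
      ext x
      by_contra h
      have hx := hsub (Finsupp.mem_support_iff.2 h)
      rcases Finset.mem_insert.1 hx with rfl | hx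
      · exact h h4
      rcases Finset.mem_insert.1 hx with rfl | hx
      · exact h h5
      · obtain ⟨j, _, rfl⟩ := Finset.mem_image.1 hx
        exact h (h2 j)
    rw [h6]
    exact zero_mem _

/-- a good system which contains prescribed elements -/
theorem exists_good (hT : Subring.closure T = ⊤) {m : ℕ} (ρ : Fin m → Fin n → MonoidAlgebra R G) :
    ∃ (V : Set (MM R G n)) (q : ℕ) (l : Fin q → Rel R G n), Good T V q l ∧ ∀ k, tt (ρ k) ∈ V := by
  classical
  have h : ∀ s : Finset (Fin m), ∃ (V : Set (MM R G n)) (q : ℕ) (l : Fin q → Rel R G n),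
      Good T V q l ∧ ∀ k ∈ s, tt (ρ k) ∈ V := by
    intro s
    induction s using Finset.induction_on with
    | empty => exact ⟨_, _, _, good_base, by simp⟩
    | insert a s _ ih =>
      obtain ⟨V, q, l, H, hs⟩ := ih
      obtain ⟨V', q', l', h1, H', h2⟩ := rch_tt hT (ρ a) V q l H
      refine ⟨V', q', l', H', fun k hk => ?_⟩
      rcases Finset.mem_insert.1 hk with rfl | hk
      · exact h2
      · exact h1 (hs k hk)
  obtain ⟨V, q, l, H, hs⟩ := h Finset.univ
  exact ⟨V, q, l, H, fun k => hs k (Finset.mem_univ _)⟩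

end Pool.Agent.U674.TJ
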