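import Pool.Agent.U674.TJ.Can
import Pool.Agent.U181.TG.BassM

/-!
# Trinomial left ideals and the Bass trace conjecture
-/

set_option autoImplicit false

namespace Pool.Agent.U674.TJ

open MonoidAlgebra Monoid.Coprod Matrix Pool.Agent.U181.TG
open Pool.Agent.U674.TI (RowSp)
open Pool.Agent.H26R2.Bass (ind)
open Pool.Agent.H23R2.Cyc (ell ell_single tf tf_apply ell_mapDomain)

/-- Let `A` be an idempotent matrix over `F[Γ]` whose row space is isomorphic to a left ideal generated by
finitely many elements `1 + a + c b`, with `a, b ∈ Γ` and `c ∈ T` or `c = 1`. Then the Hattori-Stallings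
rank vanishes at the elements `g` of infinite order which are conjugate to `g ^ (p ^ j)` for some
`j ≥ 1`. -/
def TriBass (p : ℕ) (F : Type) [CommRing F] (T : Set F) (Γ : Type) [Group Γ] : Prop :=
  ∀ (r : ℕ) (a b : Fin r → Γ) (c : Fin r → F), (∀ i, c i ∈ T ∨ c i = 1) →
    ∀ (n : ℕ) (A : Matrix (Fin n) (Fin n) (MonoidAlgebra F Γ)), A * A = A →
      Nonempty (↥(triIdeal a b c) ≃ₗ[MonoidAlgebra F Γ] RowSp A) →
        ∀ g : Γ, orderOf g = 0 → (∃ j : ℕ, 1 ≤ j ∧ IsConj g (g ^ p ^ j)) → hs A g = 0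

/-- for every finite field `F` of characteristic `p` there is an element `ζ` which generates `F` such that
the condition holds for the left ideals generated by elements `1 + a + b` and `1 + a + ζ b` -/
def TriFin (p : ℕ) (Γ : Type) [Group Γ] : Prop :=
  ∀ (F : Type) [Field F] [Finite F] [CharP F p], ∃ ζ : F, Subring.closure {ζ} = ⊤ ∧
    TriBass p F {ζ} Γ

theorem tri_of_weak {p : ℕ} {F : Type} [CommRing F] {T : Set F} {Γ : Type} [Group Γ]
    (h : WeakBass p F Γ) : TriBass p F T Γ :=
  fun _ _ _ _ _ n A hA _ g hg hj => h n A hA g hg hj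

/-- the trace of the block sum with an identity matrix -/
theorem tf_dsum {F : Type} [CommRing F] {Γ : Type} [Group Γ] {n : ℕ}
    (A : Matrix (Fin n) (Fin n) (MonoidAlgebra F Γ)) (q : ℕ) (f : Γ → F) :
    tf f (dsum A q) = tf f A + q • f 1 := by
  rw [tf_apply, tf_apply, ← finSumFinEquiv.sum_comp, Fintype.sum_sum_type]
  congr 1
  · apply Finset.sum_congr rfl
    intro i _
    simp [dsum]
  · have h1 : ∀ i : Fin q, ell f (dsum A q (finSumFinEquiv (Sum.inr i))
        (finSumFinEquiv (Sum.inr i))) = f 1 := by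
      intro i
      have h2 : dsum A q (finSumFinEquiv (Sum.inr i)) (finSumFinEquiv (Sum.inr i)) =
          MonoidAlgebra.single 1 1 := by
        simp only [dsum, Matrix.submatrix_apply, Equiv.symm_apply_apply, Matrix.fromBlocks_apply₂₂,
          Matrix.one_apply_eq]
        rfl
      rw [h2, ell_single, one_mul]
    rw [Finset.sum_congr rfl (fun i _ => h1 i)]
    simp

/-- the rank does not change under a homomorphism which reflects conjugacy -/
theorem tf_hom {F : Type} [CommRing F] {G H : Type} [Group G] [Group H] (f : G →* H)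
    (hc : ∀ x y : G, IsConj (f x) (f y) → IsConj x y) {n : ℕ}
    (A : Matrix (Fin n) (Fin n) (MonoidAlgebra F G)) (g : G) :
    tf (ind F (f g)) (A.map (gr F f)) = tf (ind F g) A := by
  rw [tf_apply, tf_apply]
  apply Finset.sum_congr rfl
  intro i _
  rw [Matrix.map_apply]
  have h2 : ell (ind F (f g)) (gr F f (A i i)) = ell (fun x => ind F (f g) (f x)) (A i i) :=
    ell_mapDomain f _ _
  rw [h2]
  congr 2
  funext x
  unfold ind
  by_cases h3 : IsConj x g
  · rw [if_pos h3, if_pos (MonoidHom.map_isConj f h3)]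
  · rw [if_neg h3, if_neg (fun h4 => h3 (hc x g h4))]

/-- the free factor of finite rank -/
theorem incl_injective (G : Type) [Group G] (m : ℕ) :
    Function.Injective (Monoid.Coprod.map (MonoidHom.id G) (FreeGroup.map (fun i : Fin m => (i : ℕ))) :
      GF G (Fin m) →* GF G ℕ) := by
  let b : FreeGroup ℕ →* FreeGroup (Fin m) :=
    FreeGroup.lift fun i => if h : i < m then FreeGroup.of ⟨i, h⟩ else 1
  have hb : b.comp (FreeGroup.map (fun i : Fin m => (i : ℕ))) = MonoidHom.id _ := by
    ext i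
    simp [b]
  have h1 := Monoid.Coprod.map_comp_map (MonoidHom.id G) b (MonoidHom.id G)
    (FreeGroup.map (fun i : Fin m => (i : ℕ)))
  rw [hb, MonoidHom.comp_id, Monoid.Coprod.map_id_id] at h1
  intro x y hxy
  have h2 := DFunLike.congr_fun h1 x
  have h3 := DFunLike.congr_fun h1 y
  rw [MonoidHom.comp_apply] at h2 h3
  rw [← hxy] at h3
  rw [h2] at h3
  exact h3

theorem incl_inl (G : Type) [Group G] (m : ℕ) :
    (Monoid.Coprod.map (MonoidHom.id G) (FreeGroup.map (fun i : Fin m => (i : ℕ))) :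
      GF G (Fin m) →* GF G ℕ).comp inl = inl := by
  ext g
  simp

/-- from the left ideals over a group which contains `G * F_ℕ` to all idempotent matrices over the group
ring of `G` -/
theorem weak_of_tri {p : ℕ} {F : Type} [CommRing F] {T : Set F} (hT : Subring.closure T = ⊤)
    {G H : Type} [Group G] [Group H] (Φ : GF G ℕ →* H) (hΦ : Function.Injective Φ)
    (hc : ∀ x y : GF G ℕ, IsConj (Φ x) (Φ y) → IsConj x y) (h : TriBass p F T H) :
    WeakBass p F G := by
  intro n A hA g hg hj
  have hA : A * A = A := hA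
  obtain ⟨m, q, r, c, hcT, hm⟩ := main1H hT A hA
  let ψ : GF G (Fin m) →* H :=
    Φ.comp (Monoid.Coprod.map (MonoidHom.id G) (FreeGroup.map (fun i : Fin m => (i : ℕ))))
  have hψ : Function.Injective ψ := hΦ.comp (incl_injective G m)
  obtain ⟨a, b, ⟨e⟩⟩ := hm H ψ hψ
  let f : G →* H := Φ.comp inl
  have hf : ψ.comp inl = f := by
    show (Φ.comp _).comp inl = _
    rw [MonoidHom.comp_assoc, incl_inl]
  rw [hf] at e
  have hinl : Function.Injective (inl : G →* GF G ℕ) := by
    intro x y hxy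
    have h1 := congrArg (Monoid.Coprod.fst : GF G ℕ →* G) hxy
    simpa using h1
  have hinj : Function.Injective f := hΦ.comp hinl
  have hconj : ∀ x y : G, IsConj (f x) (f y) → IsConj x y := by
    intro x y hxy
    have h1 := MonoidHom.map_isConj (Monoid.Coprod.fst : GF G ℕ →* G) (hc _ _ hxy)
    simpa using h1
  have hA' : A.map (gr F f) * A.map (gr F f) = A.map (gr F f) := by
    rw [← Matrix.map_mul, hA]
  obtain ⟨e'⟩ := rowSp_sum (A.map (gr F f)) hA' q
  have hord : orderOf (f g) = 0 := by rw [orderOf_injective f hinj, hg]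
  have hj' : ∃ j : ℕ, 1 ≤ j ∧ IsConj (f g) (f g ^ p ^ j) := by
    obtain ⟨j, hj1, hj2⟩ := hj
    refine ⟨j, hj1, ?_⟩
    rw [← map_pow]
    exact MonoidHom.map_isConj f hj2
  have h1 := h r a b c hcT (n + q) (dsum (A.map (gr F f)) q) (dsum_idem _ hA' q) ⟨e.trans e'⟩ (f g)
    hord hj'
  rw [hs_eq, tf_dsum, tf_hom f hconj] at h1
  have h2 : ind F (f g) 1 = 0 := by
    unfold ind
    rw [if_neg]
    intro h3
    rw [isConj_one_right] at h3
    rw [h3, orderOf_one] at hord
    exact one_ne_zero hord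
  rw [h2, smul_zero, add_zero] at h1
  rw [hs_eq]
  exact h1

theorem closure_primitive (F : Type) [Field F] [Finite F] :
    ∃ ζ : F, Subring.closure {ζ} = ⊤ := by
  obtain ⟨u, hu⟩ := IsCyclic.exists_generator (α := Fˣ)
  refine ⟨(u : F), ?_⟩
  have h0 : (u : F) ∈ Subring.closure ({(u : F)} : Set F) :=
    Subring.subset_closure (Set.mem_singleton _)
  rw [eq_top_iff]
  intro x _
  by_cases hx : x = 0
  · rw [hx]
    exact zero_mem _
  · obtain ⟨k, hk⟩ := (mem_powers_iff_mem_zpowers (x := u) (y := Units.mk0 x hx)).2 (hu _)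
    have h1 : x = (u : F) ^ k := by
      have h2 := congrArg (fun z : Fˣ => (z : F)) hk
      simpa using h2.symm
    rw [h1]
    exact pow_mem h0 k

theorem closure_zmod (p : ℕ) : Subring.closure (∅ : Set (ZMod p)) = ⊤ := by
  rw [eq_top_iff]
  intro x _
  obtain ⟨k, rfl⟩ := ZMod.intCast_surjective x
  exact intCast_mem _ k

variable {C : ∀ (G : Type) [Group G], Prop}

theorem main_trace (hC : ClosedSPW C) (hF : ∀ (G : Type) [Group G], C G → C (GF G ℕ)) :
    ∃ (Γ : Type) (_ : Group Γ) (a b : Γ), C Γ ∧ Subgroup.closure {a, b} = ⊤ ∧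
      Tests C (fun p => TriFin p Γ) ∧
      ((∀ n : ℕ, 0 < n → C (Multiplicative (ZMod n))) →
        Tests C (fun p => TriBass p (ZMod p) ∅ Γ)) := by
  have hcount : Countable (Test C) := countable_test
  have hcount' : Countable (GF (Test C) ℕ) := countable_GF _
  obtain ⟨Γ, _, a, b, ι, κ, hab, hι, hκ, hconj⟩ := exists_twoGen (GF (Test C) ℕ)
  have hΓ : C Γ := hC.sub _ _ κ hκ (hC.wr _ (hC.wr _ (hF _ (class_test hC.toClosedSP))))
  have hw : ∀ (p : ℕ) (F : Type) [CommRing F] (T : Set F), Subring.closure T = ⊤ →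
      TriBass p F T Γ → WeakBass p F (Test C) := fun p F _ T hT h =>
    weak_of_tri hT ι hι hconj h
  refine ⟨Γ, inferInstance, a, b, hΓ, hab, ?_, fun hcyc => ?_⟩
  · have hfin : ∀ p : ℕ, TriFin p Γ → ∀ (F : Type) [Field F] [Finite F] [CharP F p],
        WeakBass p F (Test C) := by
      intro p hW F _ _ _
      obtain ⟨ζ, h1, h2⟩ := hW F
      exact hw p F _ h1 h2
    have key : ∀ p : ℕ, p.Prime → TriFin p Γ → BassIn C p := by
      intro p hp hW R _ _ _ G _ hG
      by_contra hcon
      obtain ⟨F, _, _, _, h1⟩ := bad_test_of hp hG (bad_of_not_bass hcon)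
      exact not_weak_of_bad hp h1 (hfin p hW F)
    refine tests_of (fun p hp => ⟨fun h F _ _ _ => ?_, key p hp⟩) ?_
    · obtain ⟨ζ, hζ⟩ := closure_primitive F
      exact ⟨ζ, hζ, tri_of_weak (weak_of_bass (h F Γ hΓ))⟩
    intro hinf R _ _ _ G _ hG
    have hR : CharZero R := CharP.charP_to_charZero R
    by_contra hcon
    obtain ⟨m, hm, h1⟩ := bad_red (bad_of_not_bass hcon)
    obtain ⟨p, hmp, hp, hW⟩ := hinf (m + 1)
    obtain ⟨k, _, _, h2⟩ := h1 p hp (fun hd => by
      have := Nat.le_of_dvd (Nat.pos_of_ne_zero hm) hd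
      omega)
    obtain ⟨F, _, _, _, h3⟩ := bad_test_of hp hG h2
    exact not_weak_of_bad hp h3 (hfin p hW F)
  · have step : ∀ p : ℕ, p.Prime → ∀ (R : Type) [CommRing R] [IsDomain R] [CharP R p] (G : Type)
        [Group G], C G → Bad R G → ¬ TriBass p (ZMod p) ∅ Γ := by
      intro p hp R _ _ _ G _ hG hbad hW
      have hfact : Fact p.Prime := ⟨hp⟩
      obtain ⟨F, _, _, _, h1⟩ := bad_finite hp hbad
      have h2 := bad_prime hp h1
      have h3 : C (G × Fˣ) :=
        class_prod2 hC.toClosedSP hG (class_units hC.toClosedSP hcyc F)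
      exact not_weak_of_bad hp (bad_test h3 h2) (hw p (ZMod p) ∅ (closure_zmod p) hW)
    refine tests_of (fun p hp => ⟨fun h => ?_, fun hW R _ _ _ G _ hG => ?_⟩) ?_
    · have hfact : Fact p.Prime := ⟨hp⟩
      exact tri_of_weak (weak_of_bass (h (ZMod p) Γ hΓ))
    · by_contra hcon
      exact step p hp R G hG (bad_of_not_bass hcon) hW
    · intro hinf R _ _ _ G _ hG
      have hR : CharZero R := CharP.charP_to_charZero R
      by_contra hcon
      obtain ⟨m, hm, h1⟩ := bad_red (bad_of_not_bass hcon)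
      obtain ⟨p, hmp, hp, hW⟩ := hinf (m + 1)
      obtain ⟨k, _, _, h2⟩ := h1 p hp (fun hd => by
        have := Nat.le_of_dvd (Nat.pos_of_ne_zero hm) hd
        omega)
      exact step p hp k G hG h2 hW

end Pool.Agent.U674.TJ
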